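import Mathlib

/-! Shared definitions for MP_f884a2_an (Croft's problem). The plane is `ℂ`. -/

open MeasureTheory Real Set Filter Topology

namespace Croft

/-- The point with parameter `σ` on the line `(θ,p) = {z : Re (e^{-iθ} z) = p}`. -/
noncomputable def pt (θ p σ : ℝ) : ℂ :=
  Complex.exp (θ * Complex.I) * ((p : ℂ) + σ * Complex.I)

/-- Radon transform of `h` as a function of the line `l = (θ,p)`. -/
noncomputable def Rad (h : ℂ → ℝ) (l : ℝ × ℝ) : ℝ := ∫ σ : ℝ, h (pt l.1 l.2 σ)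

/-- Class D of densities. -/
structure Nice (h : ℂ → ℝ) : Prop where
  c1 : ContDiff ℝ 1 h
  nonneg : ∀ z, 0 ≤ h z
  le_one : ∀ z, h z ≤ 1
  supp : ∀ z, 1 ≤ ‖z‖ → h z = 0

/-- distance to being an indicator -/
noncomputable def J (h : ℂ → ℝ) : ℝ := ∫ z, h z * (1 - h z)

/-- `φ` (a function on lines) is the Radon transform of a `C^1` function `f`, `|f| ≤ μ`, supported in
the disc of radius `r`. -/
def Pert (r μ : ℝ) (φ : ℝ × ℝ → ℝ) : Prop :=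
  ∃ f : ℂ → ℝ, ContDiff ℝ 1 f ∧ (∀ z, |f z| ≤ μ) ∧ (∀ z, r ≤ ‖z‖ → f z = 0) ∧ ∀ l, Rad f l = φ l

/-- lines of `A` at level `s` (up to `δ`) meet the slice `Q_s` in length at least `c0` -/
def Serve (F : ℝ × ℝ → ℝ) (A : Set (ℝ × ℝ)) (c0 δ : ℝ) (Q : Set (ℂ × ℝ)) : Prop :=
  ∀ l ∈ A, ∀ s : ℝ, |F l - s| ≤ δ →
    ENNReal.ofReal c0 ≤ volume {σ : ℝ | |σ| ≤ 1 ∧ (pt l.1 l.2 σ, s) ∈ Q}

end Croft
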