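import Pool.Agent.Helper952.Croft.RadBasic

/-! Interfaces for the Borel version (all sections measurable) of the negative answer to MP_f884a2_an. -/

open MeasureTheory Real Set Filter Topology

namespace Croft

/-- statement of (KA2) -/
def KillAbstract2 : Prop :=
  ∀ (a1 a2 b1 b2 κ0 : ℝ), a1 ≤ a2 → b1 ≤ b2 → 0 < κ0 → κ0 ≤ 1 / 4 → a2 - a1 ≤ 1 / 2 →
    -1 ≤ b1 - κ0 → b2 + κ0 ≤ 1 →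
    ∀ (O : Set (ℝ × ℝ)), IsOpen O → Icc (a1 - κ0) (a2 + κ0) ×ˢ Icc (b1 - κ0) (b2 + κ0) ⊆ O →
    ∀ (A B : ℝ → ℝ), ContDiff ℝ 2 A → ContDiff ℝ 2 B → ∀ (X : ℝ), 0 < X →
    (∀ θ ∈ Icc (a1 - κ0) (a2 + κ0), X ≤ deriv A θ - deriv B θ) →
    (∀ θ ∈ Icc (a1 - κ0) (a2 + κ0), |deriv A θ| ≤ 1 / 2) →
    (∀ θ ∈ Icc (a1 - κ0) (a2 + κ0), |deriv B θ| ≤ 1 / 2) →
    ∀ (P : ℝ → (ℝ × ℝ → ℝ) → Prop),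
    (∀ μ₁ μ₂ φ₁ φ₂, P μ₁ φ₁ → P μ₂ φ₂ → P (μ₁ + μ₂) (fun l => φ₁ l + φ₂ l)) →
    (∀ μ, 0 ≤ μ → P μ (fun _ => 0)) →
    (∀ μ φ, P μ φ → ContDiff ℝ 1 φ) → (∀ μ φ, P μ φ → ∀ l, |φ l| ≤ 2 * μ) →
    (∀ K μ : ℝ, 0 < μ → ∃ k0 > 0, ∀ k ≥ k0, ∃ φ, P μ φ ∧ ∀ l ∈ O,
       φ l = K / (2 * π * k) * sin (2 * π * k * (l.2 - A l.1))) →
    (∀ K μ : ℝ, 0 < μ → ∃ k0 > 0, ∀ k ≥ k0, ∃ φ, P μ φ ∧ ∀ l ∈ O,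
       φ l = K / (2 * π * k) * sin (2 * π * k * (l.2 - B l.1))) →
    ∀ (F : ℝ × ℝ → ℝ), ContDiff ℝ 1 F → ∀ (ε μ : ℝ), 0 < ε → 0 < μ →
    ∃ φ, P μ φ ∧ ∃ δ > 0, ∃ Q : Set (ℂ × ℝ), MeasurableSet Q ∧
      (∀ l ∈ Icc a1 a2 ×ˢ Icc b1 b2, ∀ s : ℝ, |F l + φ l - s| ≤ δ →
        ENNReal.ofReal (X / 4) ≤ volume {σ : ℝ | σ ∈ Icc (deriv B l.1) (deriv A l.1 + X / 2) ∧
          (pt l.1 l.2 σ, s) ∈ Q}) ∧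
      ∃ S : Set ℝ, volume S ≤ ENNReal.ofReal ε ∧ ∀ s ∉ S, ∀ l : ℝ × ℝ,
        l.1 ∈ Icc (a1 - 5 / 3) (a2 + 5 / 3) → ε ≤ |F l - s| →
        volume {σ : ℝ | |σ| ≤ 1 ∧ (pt l.1 l.2 σ, s) ∈ Q} ≤ ENNReal.ofReal ε

/-- kill a level on a cell of lines, with small accidental crossings -/
def CellKill2 (x : ℝ × ℝ) (e c0 : ℝ) : Prop :=
  ∀ h : ℂ → ℝ, Nice h → (∀ l : ℝ × ℝ, |l.2| < 1 → 0 < Rad h l) → ∀ t > 0, ∀ ε > 0,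
    ∃ h', Nice h' ∧ (∀ z, |h' z - h z| ≤ ε) ∧ (∀ l, |Rad h' l - Rad h l| ≤ ε * Rad h l) ∧
    ∃ U : Set ℂ, MeasurableSet U ∧ U ⊆ Metric.ball 0 1 ∧ ∃ δ > 0,
      (∀ θ p : ℝ, |θ - x.1| ≤ e → |p - x.2| ≤ e → |Rad h' (θ, p) - t| ≤ δ →
        ENNReal.ofReal c0 ≤ volume {σ : ℝ | pt θ p σ ∈ U}) ∧
      (∀ l : ℝ × ℝ, ε ≤ |Rad h l - t| → volume {σ : ℝ | pt l.1 l.2 σ ∈ U} ≤ ENNReal.ofReal ε)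

def Kill2Stmt : Prop :=
  ∀ θ0 p0 : ℝ, |p0| < 1 → ∃ e > 0, ∃ c0 > 0,
    (∀ p, |p - p0| ≤ e → √(1 - p ^ 2) ≤ 20 * c0) ∧ CellKill2 (θ0, p0) e c0

end Croft
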