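import Pool.Agent.Helper952.Croft.Wave

/-! Basic properties of the Radon transform on functions supported in the unit disc. -/

open MeasureTheory Real Set Filter Topology

namespace Croft

theorem pt_contDiff : ContDiff ℝ 1 (fun q : (ℝ × ℝ) × ℝ => pt q.1.1 q.1.2 q.2) := by
  unfold pt
  have h1 : ContDiff ℝ 1 (fun q : (ℝ × ℝ) × ℝ => ((q.1.1 : ℝ) : ℂ)) :=
    Complex.ofRealCLM.contDiff.comp (contDiff_fst.comp contDiff_fst)
  have h2 : ContDiff ℝ 1 (fun q : (ℝ × ℝ) × ℝ => ((q.1.2 : ℝ) : ℂ)) :=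
    Complex.ofRealCLM.contDiff.comp (contDiff_snd.comp contDiff_fst)
  have h3 : ContDiff ℝ 1 (fun q : (ℝ × ℝ) × ℝ => ((q.2 : ℝ) : ℂ)) :=
    Complex.ofRealCLM.contDiff.comp contDiff_snd
  exact ((h1.mul contDiff_const).cexp).mul (h2.add (h3.mul contDiff_const))

theorem one_le_norm_pt (θ p σ : ℝ) (hσ : 1 ≤ |σ|) : 1 ≤ ‖pt θ p σ‖ := by
  have h := norm_pt_sq θ p σ
  have h2 : 1 ≤ ‖pt θ p σ‖ ^ 2 := by
    rw [h]
    have : 1 ≤ σ ^ 2 := by rw [← sq_abs]; nlinarith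
    nlinarith [sq_nonneg p]
  nlinarith [norm_nonneg (pt θ p σ)]

theorem Rad_eq_interval (f : ℂ → ℝ) (hf : ∀ z, 1 ≤ ‖z‖ → f z = 0) (l : ℝ × ℝ) :
    Rad f l = ∫ σ in (-1:ℝ)..1, f (pt l.1 l.2 σ) := by
  rw [intervalIntegral.integral_of_le (by norm_num), Rad]
  symm
  apply setIntegral_eq_integral_of_forall_compl_eq_zero
  intro σ hσ
  apply hf
  apply one_le_norm_pt
  simp only [mem_Ioc, not_and_or, not_lt, not_le] at hσ
  rcases hσ with h | h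
  · rw [abs_of_nonpos (by linarith)]; linarith
  · rw [abs_of_nonneg (by linarith)]; linarith

theorem Rad_contDiff (f : ℂ → ℝ) (hc : ContDiff ℝ 1 f) (hf : ∀ z, 1 ≤ ‖z‖ → f z = 0) :
    ContDiff ℝ 1 (Rad f) := by
  have : Rad f = fun l : ℝ × ℝ => ∫ σ in (-1:ℝ)..1, f (pt l.1 l.2 σ) := by
    funext l; exact Rad_eq_interval f hf l
  rw [this]
  exact contDiff_param (fun q : (ℝ × ℝ) × ℝ => f (pt q.1.1 q.1.2 q.2)) (hc.comp pt_contDiff) (-1) 1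

theorem pt_continuous (θ p : ℝ) : Continuous (fun σ => pt θ p σ) :=
  pt_contDiff.continuous.comp (by fun_prop : Continuous fun σ : ℝ => ((θ, p), σ))

theorem line_intervalIntegrable (f : ℂ → ℝ) (hc : Continuous f) (l : ℝ × ℝ) (a b : ℝ) :
    IntervalIntegrable (fun σ => f (pt l.1 l.2 σ)) volume a b :=
  (hc.comp (pt_continuous l.1 l.2)).intervalIntegrable a b

theorem Rad_add (f g : ℂ → ℝ) (hcf : Continuous f) (hcg : Continuous g)
    (hf : ∀ z, 1 ≤ ‖z‖ → f z = 0) (hg : ∀ z, 1 ≤ ‖z‖ → g z = 0) (l : ℝ × ℝ) :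
    Rad (fun z => f z + g z) l = Rad f l + Rad g l := by
  rw [Rad_eq_interval f hf, Rad_eq_interval g hg,
    Rad_eq_interval _ (fun z hz => by rw [hf z hz, hg z hz, add_zero])]
  exact intervalIntegral.integral_add (line_intervalIntegrable f hcf l _ _)
    (line_intervalIntegrable g hcg l _ _)

theorem Rad_const_mul (c : ℝ) (f : ℂ → ℝ) (l : ℝ × ℝ) :
    Rad (fun z => c * f z) l = c * Rad f l := by
  rw [Rad, Rad, integral_const_mul]

theorem Rad_abs_le (f : ℂ → ℝ) (hf : ∀ z, 1 ≤ ‖z‖ → f z = 0) (μ : ℝ) (hμ : ∀ z, |f z| ≤ μ) (l : ℝ × ℝ) :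
    |Rad f l| ≤ 2 * μ := by
  rw [Rad_eq_interval f hf]
  have := intervalIntegral.norm_integral_le_of_norm_le_const (a := -1) (b := 1)
    (f := fun σ => f (pt l.1 l.2 σ)) (C := μ) (fun s _ => hμ _)
  rw [Real.norm_eq_abs] at this
  refine this.trans (le_of_eq ?_)
  norm_num; ring

theorem Rad_sub_abs_le (f g : ℂ → ℝ) (hcf : Continuous f) (hcg : Continuous g)
    (hf : ∀ z, 1 ≤ ‖z‖ → f z = 0) (hg : ∀ z, 1 ≤ ‖z‖ → g z = 0) (μ : ℝ) (hμ : ∀ z, |f z - g z| ≤ μ)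
    (l : ℝ × ℝ) : |Rad f l - Rad g l| ≤ 2 * μ := by
  have h1 : Rad f l - Rad g l = Rad (fun z => f z - g z) l := by
    have h2 := Rad_add f (fun z => (-1) * g z) hcf (by fun_prop) hf
      (fun z hz => by rw [hg z hz, mul_zero]) l
    rw [Rad_const_mul] at h2
    have h3 : (fun z => f z + (-1) * g z) = fun z => f z - g z := by funext z; ring
    rw [h3] at h2
    rw [h2]; ring
  rw [h1]
  exact Rad_abs_le _ (fun z hz => by rw [hf z hz, hg z hz, sub_zero]) μ hμ l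

theorem Pert.add {r μ₁ μ₂ : ℝ} (hr : r ≤ 1) {φ₁ φ₂ : ℝ × ℝ → ℝ} (h1 : Pert r μ₁ φ₁) (h2 : Pert r μ₂ φ₂) :
    Pert r (μ₁ + μ₂) (fun l => φ₁ l + φ₂ l) := by
  obtain ⟨f, hf1, hf2, hf3, hf4⟩ := h1
  obtain ⟨g, hg1, hg2, hg3, hg4⟩ := h2
  refine ⟨fun z => f z + g z, hf1.add hg1, fun z => (abs_add_le _ _).trans (add_le_add (hf2 z) (hg2 z)),
    fun z hz => by simp [hf3 z hz, hg3 z hz], fun l => ?_⟩
  rw [Rad_add f g hf1.continuous hg1.continuous (fun z hz => hf3 z (hr.trans hz))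
    (fun z hz => hg3 z (hr.trans hz)), hf4, hg4]

theorem Pert.zero {r μ : ℝ} (hμ : 0 ≤ μ) : Pert r μ (fun _ => 0) :=
  ⟨fun _ => 0, contDiff_const, fun z => by simpa using hμ, fun _ _ => rfl, fun l => by simp [Rad]⟩

theorem Pert.contDiff {r μ : ℝ} (hr : r ≤ 1) {φ : ℝ × ℝ → ℝ} (h : Pert r μ φ) : ContDiff ℝ 1 φ := by
  obtain ⟨f, hf1, _, hf3, hf4⟩ := h
  have : φ = Rad f := by funext l; exact (hf4 l).symm
  rw [this]
  exact Rad_contDiff f hf1 (fun z hz => hf3 z (hr.trans hz))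

theorem Pert.abs_le {r μ : ℝ} (hr : r ≤ 1) {φ : ℝ × ℝ → ℝ} (h : Pert r μ φ) (l : ℝ × ℝ) : |φ l| ≤ 2 * μ := by
  obtain ⟨f, _, hf2, hf3, hf4⟩ := h
  rw [← hf4]
  exact Rad_abs_le f (fun z hz => hf3 z (hr.trans hz)) μ hf2 l

end Croft
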