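import Pool.Agent.Helper952.Croft.Kill
import Pool.Agent.Helper445.Croft.Kill
import Pool.Agent.Helper991.Croft.Final

/-! Glue for MP_f884a2_an: the kill step in the form needed by the assembly. -/

namespace Croft

theorem killAbstract : KillAbstract := by
  intro a1 a2 b1 b2 ha hb O hO hCO A B hA hB X hX hsep hAb hBb P hadd hzero hC1 hsup hwA hwB F hF ε μ hε hμ
  exact kill_abstract a1 a2 b1 b2 ha hb O hO hCO A B hA hB X hX hsep hAb hBb P hadd hzero hC1 hsup
    hwA hwB F hF ε μ hε hμ

theorem killStmt_of_abstract (KA : KillAbstract) : KillStmt :=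
  fun θ0 p0 hp => kill_of_abstract KA θ0 p0 hp

theorem killStmt : KillStmt := killStmt_of_abstract killAbstract

end Croft
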