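import Pool.Agent.Helper952.Croft.Kill2
import Pool.Agent.Helper445.Croft2.Kill2
import Pool.Agent.Helper546.CB.Fin2

/-! Glue for the Borel version of the answer to MP_f884a2_an. -/

namespace Croft

theorem killAbstract2 : KillAbstract2 := by
  intro a1 a2 b1 b2 κ0 ha hb hκ0 hκ1 haw hbl hbr O hO hCO A B hA hB X hX hsep hAb hBb P hadd hzero
    hC1 hsup hwA hwB F hF ε μ hε hμ
  exact kill_abstract2 a1 a2 b1 b2 κ0 ha hb hκ0 hκ1 haw hbl hbr O hO hCO A B hA hB X hX hsep hAb hBb
    P hadd hzero hC1 hsup hwA hwB F hF ε μ hε hμ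

theorem kill2Stmt : Kill2Stmt := kill2_of_abstract killAbstract2

end Croft
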