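import Pool.Agent.Helper952.Croft.KillStub

/-! The concrete kill lemma from the abstract one: cells, room and change of level. -/

open MeasureTheory Real Set Filter Topology

namespace Croft

/-- centre of the cell in polar form -/
noncomputable def ctr (θ0 x y : ℝ) : ℂ := Complex.exp (θ0 * Complex.I) * ((x : ℂ) + y * Complex.I)

theorem rot_ctr (θ0 x y θ : ℝ) :
    Complex.exp (-(θ * Complex.I)) * ctr θ0 x y =
      Complex.exp (((θ0 - θ : ℝ) : ℂ) * Complex.I) * ((x : ℂ) + y * Complex.I) := by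
  rw [ctr, ← mul_assoc, ← Complex.exp_add]
  congr 2
  push_cast; ring

theorem re_rot (θ0 x y θ : ℝ) : (Complex.exp (-(θ * Complex.I)) * ctr θ0 x y).re =
    x * cos (θ - θ0) + y * sin (θ - θ0) := by
  rw [rot_ctr, Complex.exp_mul_I, ← Complex.ofReal_cos, ← Complex.ofReal_sin]
  simp only [Complex.mul_re, Complex.add_re, Complex.add_im, Complex.ofReal_re, Complex.ofReal_im,
    Complex.mul_im, Complex.I_re, Complex.I_im]
  have h1 : cos (θ - θ0) = cos (θ0 - θ) := by rw [← cos_neg]; congr 1; ring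
  have h2 : sin (θ - θ0) = - sin (θ0 - θ) := by rw [← sin_neg]; congr 1; ring
  rw [h1, h2]; ring

theorem norm_ctr_le (θ0 x y : ℝ) : ‖ctr θ0 x y‖ ≤ |x| + |y| := by
  rw [ctr, norm_mul, Complex.norm_exp_ofReal_mul_I, one_mul]
  refine (norm_add_le _ _).trans ?_
  rw [norm_mul, Complex.norm_I, mul_one, Complex.norm_real, Complex.norm_real]
  exact le_rfl

theorem deriv_AB (θ0 x y θ : ℝ) :
    deriv (fun θ => x * cos (θ - θ0) + y * sin (θ - θ0)) θ = - x * sin (θ - θ0) + y * cos (θ - θ0) := by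
  have h1 : HasDerivAt (fun θ : ℝ => θ - θ0) 1 θ := (hasDerivAt_id' θ).sub_const θ0
  have h2 := (h1.cos.const_mul x).add (h1.sin.const_mul y)
  have h3 : HasDerivAt (fun θ => x * cos (θ - θ0) + y * sin (θ - θ0))
    (x * (-sin (θ - θ0) * 1) + y * (cos (θ - θ0) * 1)) θ := h2
  rw [h3.deriv]; ring

/-- the room function -/
theorem exists_room (r : ℝ) (hr0 : 0 < r) (hr : r < 1) : ∃ χ : ℂ → ℝ, ContDiff ℝ 1 χ ∧ (∀ z, 0 ≤ χ z) ∧
    (∀ z, χ z ≤ 1) ∧ (∀ z, ‖z‖ ≤ r → χ z = 1) ∧ ∀ z, 1 ≤ ‖z‖ → χ z = 0 := by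
  let f : ContDiffBump (0 : ℂ) := ⟨r, 1, hr0, hr⟩
  refine ⟨f, f.contDiff, fun z => f.nonneg, fun z => f.le_one, fun z hz => ?_, fun z hz => ?_⟩
  · apply f.one_of_mem_closedBall
    rw [Metric.mem_closedBall, dist_zero_right]; exact hz
  · apply f.zero_of_le_dist
    rw [dist_zero_right]; exact hz

theorem exists_slice (Q : Set (ℂ × ℝ)) (hQ : MeasurableSet Q) (t τ ε : ℝ) (hτ : 0 < τ) (hε : 0 < ε)
    (hv : volume Q ≤ ENNReal.ofReal (ε * τ / 2)) :
    ∃ s ∈ Ioo t (t + τ), volume {z | (z, s) ∈ Q} ≤ ENNReal.ofReal ε := by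
  by_contra hcon
  push Not at hcon
  have h1 : volume Q = ∫⁻ s : ℝ, volume {z : ℂ | (z, s) ∈ Q} := by
    rw [Measure.volume_eq_prod, Measure.prod_apply_symm hQ]
    rfl
  have h2 : ENNReal.ofReal (ε * τ) ≤ ∫⁻ s : ℝ, volume {z : ℂ | (z, s) ∈ Q} := by
    calc ENNReal.ofReal (ε * τ) = ∫⁻ _ in Ioo t (t + τ), ENNReal.ofReal ε := by
          rw [setLIntegral_const, Real.volume_Ioo, ENNReal.ofReal_mul hε.le]
          congr 2; ring
      _ ≤ ∫⁻ s in Ioo t (t + τ), volume {z : ℂ | (z, s) ∈ Q} := by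
          apply setLIntegral_mono' measurableSet_Ioo
          intro s hs
          exact (hcon s hs).le
      _ ≤ ∫⁻ s : ℝ, volume {z : ℂ | (z, s) ∈ Q} := setLIntegral_le_lintegral _ _
  rw [← h1] at h2
  have h3 := h2.trans hv
  rw [ENNReal.ofReal_le_ofReal_iff (by positivity)] at h3
  nlinarith [mul_pos hε hτ]

theorem kill_of_abstract (KA : KillAbstract) (θ0 p0 : ℝ) (hp : |p0| < 1) :
    ∃ e > 0, ∃ c0 > 0, ∀ h, Nice h → ∀ t > 0, ∀ ε > 0,
    ∃ h', Nice h' ∧ ∃ U : Set ℂ, MeasurableSet U ∧ volume U ≤ ENNReal.ofReal ε ∧ ∃ δ > 0,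
      (∀ l, |Rad h' l - Rad h l| ≤ ε) ∧ (∀ z, |h' z - h z| ≤ ε) ∧
      ∀ θ p, |θ - θ0| ≤ e → |p - p0| ≤ e → |Rad h' (θ, p) - t| ≤ δ →
        ENNReal.ofReal c0 ≤ volume {σ : ℝ | |σ| ≤ 1 ∧ pt θ p σ ∈ U} := by
  set d := (1 - |p0|) / 12 with hd
  have hd0 : 0 < d := by rw [hd]; linarith
  have hd1 : d ≤ 1 / 12 := by rw [hd]; linarith [abs_nonneg p0]
  set e := d / 20 with he
  have he0 : 0 < e := by positivity
  set r := |p0| + 6 * d with hr
  have hr1 : r < 1 := by rw [hr, hd]; linarith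
  have hr0 : 0 < r := by rw [hr]; positivity
  set x := p0 - d with hx
  have hxabs : |x| ≤ |p0| + d := by
    rw [hx]; refine (abs_sub _ _).trans ?_; rw [abs_of_pos hd0]
  have hxle : |x| ≤ 1 := by rw [hr] at hr1; linarith
  set cR := ctr θ0 x d with hcR
  set cL := ctr θ0 x (-d) with hcL
  have hcRn : ‖cR‖ + 4 * d ≤ r := by
    have := norm_ctr_le θ0 x d
    rw [abs_of_pos hd0] at this
    linarith
  have hcLn : ‖cL‖ + 4 * d ≤ r := by
    have := norm_ctr_le θ0 x (-d)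
    rw [abs_neg, abs_of_pos hd0] at this
    linarith
  set A : ℝ → ℝ := fun θ => x * cos (θ - θ0) + d * sin (θ - θ0) with hA
  set B : ℝ → ℝ := fun θ => x * cos (θ - θ0) + (-d) * sin (θ - θ0) with hB
  have qdA : ∀ l : ℝ × ℝ, qd cR l = l.2 - A l.1 := fun l => by rw [qd, hcR, re_rot]
  have qdB : ∀ l : ℝ × ℝ, qd cL l = l.2 - B l.1 := fun l => by rw [qd, hcL, re_rot]
  set O : Set (ℝ × ℝ) := {l | |l.1 - θ0| < 2 * e ∧ |l.2 - p0| < 2 * e} with hO
  have hOo : IsOpen O := by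
    have i1 : IsOpen {l : ℝ × ℝ | |l.1 - θ0| < 2 * e} := isOpen_lt (by fun_prop) continuous_const
    have i2 : IsOpen {l : ℝ × ℝ | |l.2 - p0| < 2 * e} := isOpen_lt (by fun_prop) continuous_const
    exact i1.inter i2
  -- trigonometric estimates
  have hcos : ∀ α : ℝ, |α| < 2 * e → 1 - cos α ≤ |α| := by
    intro α hα
    have h1 := Real.one_sub_sq_div_two_le_cos (x := α)
    have h2 : |α| ≤ 1 := by linarith
    have h3 : α ^ 2 ≤ |α| := by rw [← sq_abs]; nlinarith [abs_nonneg α]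
    linarith [abs_nonneg α]
  have hsin : ∀ α : ℝ, |sin α| ≤ |α| := fun α => Real.abs_sin_le_abs
  have hq : ∀ y, |y| = d → ∀ l ∈ O, l.2 - (x * cos (l.1 - θ0) + y * sin (l.1 - θ0)) ∈ Ioo (d / 2) (2 * d) := by
    intro y hy l hl
    obtain ⟨h1, h2⟩ := hl
    set α := l.1 - θ0 with hα
    have e1 : l.2 - (x * cos α + y * sin α) - d = (l.2 - p0) + x * (1 - cos α) - y * sin α := by
      rw [hx]; ring
    have h3 : |l.2 - (x * cos α + y * sin α) - d| < 6 * e := by
      rw [e1]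
      have b1 : |x * (1 - cos α)| ≤ |α| := by
        rw [abs_mul, abs_of_nonneg (by linarith [cos_le_one α] : 0 ≤ 1 - cos α)]
        calc |x| * (1 - cos α) ≤ 1 * |α| := by
              gcongr
              · linarith [cos_le_one α]
              · exact hcos α h1
          _ = |α| := one_mul _
      have b2 : |y * sin α| ≤ |α| := by
        rw [abs_mul, hy]
        calc d * |sin α| ≤ 1 * |α| :=
              mul_le_mul (by linarith) (hsin α) (abs_nonneg _) zero_le_one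
          _ = |α| := one_mul _
      calc |(l.2 - p0) + x * (1 - cos α) - y * sin α| ≤ |l.2 - p0| + |x * (1 - cos α)| + |y * sin α| :=
            (abs_sub _ _).trans (add_le_add (abs_add_le _ _) le_rfl)
        _ < 2 * e + 2 * e + 2 * e := by linarith
        _ = 6 * e := by ring
    rw [abs_lt] at h3
    constructor <;> rw [he] at h3 <;> linarith [h3.1, h3.2]
  have hCO : Icc (θ0 - e) (θ0 + e) ×ˢ Icc (p0 - e) (p0 + e) ⊆ O := by
    intro l hl
    obtain ⟨⟨h1, h2⟩, h3, h4⟩ := hl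
    constructor <;> rw [abs_lt] <;> constructor <;> linarith
  refine ⟨e, he0, d / 4, by positivity, ?_⟩
  intro h hh t ht ε hε
  -- room
  obtain ⟨χ, hχc, hχ0, hχ1, hχr, hχs⟩ := exists_room r hr0 hr1
  set η := min (1 / 2) (ε / 8) with hη
  have hη0 : 0 < η := by rw [hη]; positivity
  have hη1 : η ≤ 1 / 2 := min_le_left _ _
  have hη2 : η ≤ ε / 8 := min_le_right _ _
  set h1 : ℂ → ℝ := fun z => (1 - η) * h z + η / 2 * χ z with hh1
  have h1c : ContDiff ℝ 1 h1 := (contDiff_const.mul hh.c1).add (contDiff_const.mul hχc)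
  have h1s : ∀ z, 1 ≤ ‖z‖ → h1 z = 0 := fun z hz => by simp [hh1, hh.supp z hz, hχs z hz]
  set F := Rad h1 with hF
  have hFc : ContDiff ℝ 1 F := Rad_contDiff h1 h1c h1s
  -- the interval of levels
  set τ := t * ε / 16 with hτ
  have hτ0 : 0 < τ := by positivity
  have hAc : ContDiff ℝ 2 A := by rw [hA]; fun_prop
  have hBc : ContDiff ℝ 2 B := by rw [hB]; fun_prop
  have hdA : ∀ θ, deriv A θ = - x * sin (θ - θ0) + d * cos (θ - θ0) := fun θ => deriv_AB θ0 x d θ
  have hdB : ∀ θ, deriv B θ = - x * sin (θ - θ0) + (-d) * cos (θ - θ0) := fun θ => deriv_AB θ0 x (-d) θ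
  have hcosl : ∀ l ∈ Icc (θ0 - e) (θ0 + e) ×ˢ Icc (p0 - e) (p0 + e), 1 / 2 ≤ cos (l.1 - θ0) ∧ |sin (l.1 - θ0)| ≤ 2 * e := by
    intro l hl
    have h2 := (hCO hl).1
    constructor
    · have := hcos _ h2
      linarith
    · exact (hsin _).trans h2.le
  have hbd : ∀ y, |y| = d → ∀ l ∈ Icc (θ0 - e) (θ0 + e) ×ˢ Icc (p0 - e) (p0 + e),
      |- x * sin (l.1 - θ0) + y * cos (l.1 - θ0)| ≤ 1 / 2 := by
    intro y hy l hl
    have h2 := (hcosl l hl).2
    have h3 := abs_cos_le_one (l.1 - θ0)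
    calc |- x * sin (l.1 - θ0) + y * cos (l.1 - θ0)| ≤ |- x * sin (l.1 - θ0)| + |y * cos (l.1 - θ0)| := abs_add_le _ _
      _ = |x| * |sin (l.1 - θ0)| + d * |cos (l.1 - θ0)| := by rw [abs_mul, abs_mul, abs_neg, hy]
      _ ≤ 1 * (2 * e) + d * 1 := by gcongr
      _ ≤ 1 / 2 := by linarith
  obtain ⟨φ, hφ, δ, hδ, Q, hQm, hQv, hserve⟩ := KA (θ0 - e) (θ0 + e) (p0 - e) (p0 + e) (by linarith) (by linarith)
    O hOo hCO A B hAc hBc d hd0
    (by
      intro l hl
      rw [hdA, hdB]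
      have := (hcosl l hl).1
      nlinarith)
    (by intro l hl; rw [hdA]; exact hbd d (abs_of_pos hd0) l hl)
    (by intro l hl; rw [hdB]; exact hbd (-d) (by rw [abs_neg, abs_of_pos hd0]) l hl)
    (Pert r) (fun μ₁ μ₂ φ₁ φ₂ a b => Pert.add hr1.le a b) (fun μ hμ => Pert.zero hμ)
    (fun μ φ a => a.contDiff hr1.le) (fun μ φ a => a.abs_le hr1.le)
    (by
      intro K μ hμ
      obtain ⟨k0, hk0, hk⟩ := wave cR d r hd0 hcRn K μ hμ
      refine ⟨k0, hk0, fun k hkk => ?_⟩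
      obtain ⟨φ, h2, h3⟩ := hk k hkk
      refine ⟨φ, h2, fun l hl => ?_⟩
      rw [h3 l (by rw [qdA]; exact hq d (abs_of_pos hd0) l hl), qdA])
    (by
      intro K μ hμ
      obtain ⟨k0, hk0, hk⟩ := wave cL d r hd0 hcLn K μ hμ
      refine ⟨k0, hk0, fun k hkk => ?_⟩
      obtain ⟨φ, h2, h3⟩ := hk k hkk
      refine ⟨φ, h2, fun l hl => ?_⟩
      rw [h3 l (by rw [qdB]; exact hq (-d) (by rw [abs_neg, abs_of_pos hd0]) l hl), qdB])
    F hFc (ε * τ / 2) (η / 2) (by positivity) (by positivity)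
  obtain ⟨s, hs, hUs⟩ := exists_slice Q hQm t τ ε hτ0 hε hQv
  have hs0 : 0 < s := ht.trans hs.1
  have hts : t / s ≤ 1 := by rw [div_le_one hs0]; exact hs.1.le
  have hts0 : 0 < t / s := by positivity
  have hts2 : 1 - t / s ≤ ε / 16 := by
    have h2 := hs.2
    rw [hτ] at h2
    rw [sub_le_iff_le_add, ← sub_le_iff_le_add']
    rw [le_div_iff₀ hs0]
    by_cases hε16 : ε / 16 ≤ 1
    · have : (1 - ε / 16) * s ≤ (1 - ε / 16) * (t + t * ε / 16) := by
        apply mul_le_mul_of_nonneg_left h2.le; linarith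
      nlinarith [mul_pos ht hε, mul_pos hε hε, mul_pos (mul_pos ht hε) hε]
    · nlinarith
  obtain ⟨f, hf1, hf2, hf3, hf4⟩ := hφ
  have hfs : ∀ z, 1 ≤ ‖z‖ → f z = 0 := fun z hz => hf3 z (hr1.le.trans hz)
  -- range of h1 + f
  have hrange : ∀ z, 0 ≤ h1 z + f z ∧ h1 z + f z ≤ 1 := by
    intro z
    have h2 := hh.nonneg z
    have h3 := hh.le_one z
    by_cases hz : ‖z‖ ≤ r
    · have h4 := hf2 z
      rw [abs_le] at h4
      have h5 : h1 z = (1 - η) * h z + η / 2 := by simp [hh1, hχr z hz]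
      constructor
      · rw [h5]; nlinarith [h4.1]
      · rw [h5]; nlinarith [h4.2]
    · have h4 := hf3 z (le_of_not_ge hz)
      rw [h4, add_zero]
      have h5 := hχ0 z
      have h6 := hχ1 z
      constructor
      · simp only [hh1]; nlinarith [mul_nonneg (by linarith : 0 ≤ 1 - η) h2, mul_nonneg hη0.le h5]
      · simp only [hh1]; nlinarith [mul_nonneg (by linarith : 0 ≤ 1 - η) (sub_nonneg.mpr h3)]
  set h' : ℂ → ℝ := fun z => t / s * (h1 z + f z) with hh'
  have hh'N : Nice h' := by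
    refine ⟨contDiff_const.mul (h1c.add hf1), fun z => mul_nonneg hts0.le (hrange z).1, fun z => ?_, fun z hz => ?_⟩
    · calc t / s * (h1 z + f z) ≤ 1 * 1 := mul_le_mul hts (hrange z).2 (hrange z).1 zero_le_one
        _ = 1 := one_mul 1
    · simp [hh', h1s z hz, hfs z hz]
  have hclose : ∀ z, |h' z - h z| ≤ ε / 2 := by
    intro z
    have e1 : h' z - h z = -(1 - t / s) * (h1 z + f z) + f z + (h1 z - h z) := by simp only [hh']; ring
    have b1 : |-(1 - t / s) * (h1 z + f z)| ≤ ε / 16 := by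
      rw [abs_mul, abs_neg, abs_of_nonneg (by linarith : 0 ≤ 1 - t / s), abs_of_nonneg (hrange z).1]
      calc (1 - t / s) * (h1 z + f z) ≤ ε / 16 * 1 := mul_le_mul hts2 (hrange z).2 (hrange z).1 (by positivity)
        _ = ε / 16 := mul_one _
    have b2 : |f z| ≤ ε / 16 := (hf2 z).trans (by linarith)
    have b3 : |h1 z - h z| ≤ ε / 8 + ε / 16 := by
      have : h1 z - h z = - η * h z + η / 2 * χ z := by simp only [hh1]; ring
      rw [this]
      refine (abs_add_le _ _).trans ?_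
      rw [abs_mul, abs_mul, abs_neg, abs_of_pos hη0, abs_of_pos (by positivity : 0 < η / 2),
        abs_of_nonneg (hh.nonneg z), abs_of_nonneg (hχ0 z)]
      have h2 : η * h z ≤ η * 1 := mul_le_mul_of_nonneg_left (hh.le_one z) hη0.le
      have h3 : η / 2 * χ z ≤ η / 2 * 1 := mul_le_mul_of_nonneg_left (hχ1 z) (by positivity)
      linarith
    rw [e1]
    calc |-(1 - t / s) * (h1 z + f z) + f z + (h1 z - h z)|
        ≤ |-(1 - t / s) * (h1 z + f z)| + |f z| + |h1 z - h z| :=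
          (abs_add_le _ _).trans (add_le_add (abs_add_le _ _) le_rfl)
      _ ≤ ε / 2 := by linarith
  have hRad' : ∀ l, Rad h' l = t / s * (F l + φ l) := by
    intro l
    rw [hh', Rad_const_mul, Rad_add h1 f h1c.continuous hf1.continuous h1s hfs, hf4]
  refine ⟨h', hh'N, {z | (z, s) ∈ Q}, ?_, hUs, δ * (t / s), by positivity, ?_, ?_, ?_⟩
  · exact hQm.preimage (by fun_prop : Measurable fun z : ℂ => (z, s))
  · intro l
    have := Rad_sub_abs_le h' h hh'N.c1.continuous hh.c1.continuous hh'N.supp hh.supp (ε / 2) hclose l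
    linarith
  · intro z
    exact (hclose z).trans (by linarith)
  · intro θ p hθ hp' hlev
    have hmem : (θ, p) ∈ Icc (θ0 - e) (θ0 + e) ×ˢ Icc (p0 - e) (p0 + e) := by
      rw [abs_le] at hθ hp'
      exact ⟨⟨by linarith [hθ.1], by linarith [hθ.2]⟩, by linarith [hp'.1], by linarith [hp'.2]⟩
    apply hserve (θ, p) hmem s
    rw [hRad'] at hlev
    have e2 : t / s * (F (θ, p) + φ (θ, p)) - t = t / s * (F (θ, p) + φ (θ, p) - s) := by
      field_simp
    rw [e2, abs_mul, abs_of_pos hts0, mul_comm] at hlev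
    exact le_of_mul_le_mul_right hlev hts0

end Croft
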