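import Pool.Agent.Helper952.Croft.Kill2Stub
import Pool.Agent.Helper952.Croft.Kill

/-! The concrete kill lemma with small accidental crossings, from the abstract one. -/

open MeasureTheory Real Set Filter Topology

namespace Croft

/-! ### invariance of the parametrisation -/

theorem pt_add_pi (θ p σ : ℝ) : pt (θ + π) (-p) (-σ) = pt θ p σ := by
  unfold pt
  have h : Complex.exp (((θ + π : ℝ) : ℂ) * Complex.I) = - Complex.exp (θ * Complex.I) := by
    push_cast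
    rw [add_mul, Complex.exp_add, Complex.exp_pi_mul_I]; ring
  rw [h]; push_cast; ring

theorem Rad_add_pi (h : ℂ → ℝ) (θ p : ℝ) : Rad h (θ + π, -p) = Rad h (θ, p) := by
  unfold Rad
  simp only
  rw [← integral_neg_eq_self (fun σ => h (pt (θ + π) (-p) σ))]
  simp only [pt_add_pi]

theorem vol_add_pi (U : Set ℂ) (θ p : ℝ) :
    volume {σ : ℝ | pt (θ + π) (-p) σ ∈ U} = volume {σ : ℝ | pt θ p σ ∈ U} := by
  have h : {σ : ℝ | pt θ p σ ∈ U} = Neg.neg ⁻¹' {σ : ℝ | pt (θ + π) (-p) σ ∈ U} := by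
    ext σ
    simp only [mem_preimage, mem_ofPred_eq, pt_add_pi]
  rw [h]
  exact (Measure.measure_preimage_neg volume _).symm

/-- same line, given by another pair -/
def Same (l l' : ℝ × ℝ) : Prop :=
  |l'.2| = |l.2| ∧ (∀ h : ℂ → ℝ, Rad h l' = Rad h l) ∧
    ∀ U : Set ℂ, volume {σ : ℝ | pt l'.1 l'.2 σ ∈ U} = volume {σ : ℝ | pt l.1 l.2 σ ∈ U}

theorem Same.refl (l : ℝ × ℝ) : Same l l := ⟨rfl, fun _ => rfl, fun _ => rfl⟩

theorem Same.trans {a b c : ℝ × ℝ} (h1 : Same a b) (h2 : Same b c) : Same a c :=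
  ⟨h2.1.trans h1.1, fun h => (h2.2.1 h).trans (h1.2.1 h), fun U => (h2.2.2 U).trans (h1.2.2 U)⟩

theorem same_add_pi (θ p : ℝ) : Same (θ, p) (θ + π, -p) :=
  ⟨abs_neg p, fun h => Rad_add_pi h θ p, fun U => vol_add_pi U θ p⟩

theorem same_sub_pi (θ p : ℝ) : Same (θ, p) (θ - π, -p) := by
  have h := same_add_pi (θ - π) (-p)
  rw [sub_add_cancel, neg_neg] at h
  exact ⟨h.1.symm, fun f => (h.2.1 f).symm, fun U => (h.2.2 U).symm⟩

theorem exists_same (a b : ℝ) (hab : π ≤ b - a) (l : ℝ × ℝ) : ∃ l', Same l l' ∧ l'.1 ∈ Icc a b := by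
  have hnat : ∀ n : ℕ, ∀ l : ℝ × ℝ, ∃ l', Same l l' ∧ l'.1 = l.1 + n * π := by
    intro n
    induction n with
    | zero => intro l; exact ⟨l, Same.refl l, by simp⟩
    | succ n ih =>
      intro l
      obtain ⟨l', h1, h2⟩ := ih l
      refine ⟨(l'.1 + π, -l'.2), h1.trans (same_add_pi _ _), ?_⟩
      simp only [h2]; push_cast; ring
  have hnat' : ∀ n : ℕ, ∀ l : ℝ × ℝ, ∃ l', Same l l' ∧ l'.1 = l.1 - n * π := by
    intro n
    induction n with
    | zero => intro l; exact ⟨l, Same.refl l, by simp⟩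
    | succ n ih =>
      intro l
      obtain ⟨l', h1, h2⟩ := ih l
      refine ⟨(l'.1 - π, -l'.2), h1.trans (same_sub_pi _ _), ?_⟩
      simp only [h2]; push_cast; ring
  have hpi := Real.pi_pos
  -- integer shift
  set m : ℤ := ⌈(a - l.1) / π⌉ with hm
  have h1 : (a - l.1) / π ≤ m := Int.le_ceil _
  have h2 : (m : ℝ) < (a - l.1) / π + 1 := Int.ceil_lt_add_one _
  rw [div_le_iff₀ hpi] at h1
  have h2' : (m : ℝ) * π < (a - l.1) + π := by
    have := mul_lt_mul_of_pos_right h2 hpi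
    rwa [add_mul, div_mul_cancel₀ _ hpi.ne', one_mul] at this
  rcases le_total 0 m with hm0 | hm0
  · obtain ⟨n, hn⟩ := Int.eq_ofNat_of_zero_le hm0
    obtain ⟨l', h3, h4⟩ := hnat n l
    refine ⟨l', h3, ?_⟩
    rw [h4]
    have : (m : ℝ) = n := by rw [hn]; simp
    rw [this] at h1 h2'
    constructor <;> linarith
  · obtain ⟨n, hn⟩ := Int.eq_ofNat_of_zero_le (neg_nonneg.mpr hm0)
    obtain ⟨l', h3, h4⟩ := hnat' n l
    refine ⟨l', h3, ?_⟩
    rw [h4]
    have : (m : ℝ) = -n := by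
      have : m = -(n : ℤ) := by omega
      rw [this]; simp
    rw [this] at h1 h2'
    constructor <;> linarith

/-! ### geometry of the cells -/

theorem norm_ctr_sq (θ0 x y : ℝ) : ‖ctr θ0 x y‖ ^ 2 = x ^ 2 + y ^ 2 := by
  have h : ctr θ0 x y = pt θ0 x y := rfl
  rw [h, norm_pt_sq]

theorem exists_room2 (r r2 : ℝ) (hr0 : 0 < r) (hr : r < r2) : ∃ χ : ℂ → ℝ, ContDiff ℝ 1 χ ∧ (∀ z, 0 ≤ χ z) ∧
    (∀ z, χ z ≤ 1) ∧ (∀ z, ‖z‖ ≤ r → χ z = 1) ∧ ∀ z, r2 ≤ ‖z‖ → χ z = 0 := by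
  let f : ContDiffBump (0 : ℂ) := ⟨r, r2, hr0, hr⟩
  refine ⟨f, f.contDiff, fun z => f.nonneg, fun z => f.le_one, fun z hz => ?_, fun z hz => ?_⟩
  · apply f.one_of_mem_closedBall
    rw [Metric.mem_closedBall, dist_zero_right]; exact hz
  · apply f.zero_of_le_dist
    rw [dist_zero_right]; exact hz

/-- positive lower bound of the Radon transform on the lines meeting a smaller disc -/
theorem exists_lower (h : ℂ → ℝ) (hh : Nice h) (hpos : ∀ l : ℝ × ℝ, |l.2| < 1 → 0 < Rad h l) (r : ℝ)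
    (hr : r < 1) : ∃ m > 0, ∀ l : ℝ × ℝ, |l.2| ≤ r → m ≤ Rad h l := by
  have hc : Continuous (Rad h) := (Rad_contDiff h hh.c1 hh.supp).continuous
  have hcomp : IsCompact (Icc (0:ℝ) π ×ˢ Icc (-r) r) := isCompact_Icc.prod isCompact_Icc
  rcases le_or_gt 0 r with hr0 | hr0
  · have hne : (Icc (0:ℝ) π ×ˢ Icc (-r) r).Nonempty :=
      ⟨(0, 0), ⟨le_rfl, Real.pi_pos.le⟩, by simpa using hr0, by simpa using hr0⟩
    obtain ⟨l0, hl0, hmin⟩ := hcomp.exists_isMinOn hne hc.continuousOn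
    have hl0' : |l0.2| < 1 := lt_of_le_of_lt (abs_le.mpr ⟨hl0.2.1, hl0.2.2⟩) hr
    refine ⟨Rad h l0, hpos l0 hl0', fun l hl => ?_⟩
    obtain ⟨l', h1, h2⟩ := exists_same 0 π (by simp) l
    rw [← h1.2.1 h]
    have h3 : |l'.2| ≤ r := by rw [h1.1]; exact hl
    exact hmin ⟨h2, abs_le.mp h3⟩
  · exact ⟨1, one_pos, fun l hl => absurd (abs_nonneg l.2) (by linarith)⟩

/-- the geometric data of a cell -/
theorem cell_geometry (p0 : ℝ) (hp : |p0| < 1) : ∃ d y r e : ℝ, 0 < d ∧ 0 < y ∧ 0 < r ∧ r < 1 ∧ 0 < e ∧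
    e = d / 20 ∧ d ≤ 1 / 24 ∧ y = √(1 - p0 ^ 2) / 3 ∧ y ≤ 1 / 3 ∧ |p0| + 3 * e ≤ 1 ∧
    (∀ θ0 : ℝ, ‖ctr θ0 (p0 - d) y‖ + 4 * d ≤ r) ∧ (∀ θ0 : ℝ, ‖ctr θ0 (p0 - d) (-y)‖ + 4 * d ≤ r) ∧
    (∀ p, |p - p0| ≤ e → √(1 - p ^ 2) ≤ 20 * (3 * y / 8)) ∧
    (∀ p σ, |p - p0| ≤ e → |σ| ≤ 7 * y / 4 + 2 * e → p ^ 2 + σ ^ 2 < 1) := by
  set q := |p0| with hq
  have hq0 : 0 ≤ q := abs_nonneg _
  set g := 1 - q with hg
  have hg0 : 0 < g := by linarith
  have hg1 : g ≤ 1 := by linarith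
  have hpq : p0 ^ 2 = q ^ 2 := (sq_abs p0).symm
  set hc := √(1 - p0 ^ 2) with hhc
  have h1 : 0 < 1 - p0 ^ 2 := by rw [hpq]; nlinarith
  have hc0 : 0 < hc := Real.sqrt_pos.mpr h1
  have hc2 : hc ^ 2 = 1 - p0 ^ 2 := Real.sq_sqrt h1.le
  have hcg : g ≤ hc ^ 2 := by rw [hc2, hpq]; nlinarith
  have hc1 : hc ≤ 1 := by nlinarith [sq_nonneg p0]
  have hchc : hc ^ 2 ≤ hc := by nlinarith
  set d := g / 24 with hd
  have hd0 : 0 < d := by positivity
  have hnorm : ∀ θ0 y, y ^ 2 = (hc / 3) ^ 2 → ‖ctr θ0 (p0 - d) y‖ + 4 * d ≤ 1 - g / 5 := by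
    intro θ0 y hy
    have h2 := norm_ctr_sq θ0 (p0 - d) y
    have h3 : ‖ctr θ0 (p0 - d) y‖ ≤ 1 - 4 / 9 * g + 3 / 2 * d := by
      apply abs_le_of_sq_le_sq' _ _ |>.2
      · rw [h2, hy]
        have h4 : (p0 - d) ^ 2 ≤ q ^ 2 + 2 * q * d + d ^ 2 := by
          have : |p0| * d = q * d := rfl
          nlinarith [neg_abs_le p0]
        have h5 : (hc / 3) ^ 2 = (1 - q ^ 2) / 9 := by rw [div_pow, hc2, hpq]; norm_num
        rw [h5]
        have hqg : q = 1 - g := by rw [hg]; ring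
        have hdg : g = 24 * d := by rw [hd]; ring
        rw [hqg] at h4 ⊢
        rw [hdg] at h4 ⊢
        nlinarith [sq_nonneg d]
      · rw [hd]; linarith
    have h6 : 1 - 4 / 9 * g + 3 / 2 * d + 4 * d ≤ 1 - g / 5 := by rw [hd]; linarith
    linarith
  refine ⟨d, hc / 3, 1 - g / 5, d / 20, hd0, by positivity, by linarith, by linarith, by positivity, rfl,
    by rw [hd]; linarith, rfl, by linarith, ?_, ?_, ?_, ?_, ?_⟩
  · rw [hd]; linarith
  · intro θ0; exact hnorm θ0 _ rfl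
  · intro θ0; exact hnorm θ0 _ (by ring)
  · intro p hpp
    have h2 : 1 - p ^ 2 ≤ (20 * (3 * (hc / 3) / 8)) ^ 2 := by
      have h3 : p0 ^ 2 - p ^ 2 ≤ 2 * |p - p0| := by
        have h4 : p0 ^ 2 - p ^ 2 = -(p - p0) * (2 * p0) - (p - p0) ^ 2 := by ring
        have h5 : -(p - p0) * (2 * p0) ≤ |p - p0| * 2 := by
          calc -(p - p0) * (2 * p0) ≤ |-(p - p0) * (2 * p0)| := le_abs_self _
            _ = |p - p0| * (2 * q) := by rw [abs_mul, abs_neg, abs_mul, abs_of_pos (by norm_num : (0:ℝ) < 2)]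
            _ ≤ |p - p0| * 2 := by
              apply mul_le_mul_of_nonneg_left _ (abs_nonneg _); linarith
        nlinarith [sq_nonneg (p - p0)]
      have h6 : 1 - p ^ 2 ≤ hc ^ 2 + 2 * (d / 20) := by rw [hc2]; linarith
      have h7 : d ≤ hc ^ 2 / 24 := by rw [hd]; linarith
      nlinarith [sq_nonneg hc]
    calc √(1 - p ^ 2) ≤ √((20 * (3 * (hc / 3) / 8)) ^ 2) := Real.sqrt_le_sqrt h2
      _ = 20 * (3 * (hc / 3) / 8) := Real.sqrt_sq (by positivity)
  · intro p σ hpp hσ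
    have h7 : d ≤ hc ^ 2 / 24 := by rw [hd]; linarith
    have h8 : d ≤ hc / 24 := by linarith
    have h3 : |p| ≤ q + d / 20 := by
      have : |p| ≤ |p - p0| + |p0| := by
        have := abs_add_le (p - p0) p0
        rwa [sub_add_cancel] at this
      linarith
    have h4 : p ^ 2 ≤ (q + d / 20) ^ 2 := by rw [← sq_abs]; exact pow_le_pow_left₀ (abs_nonneg _) h3 2
    have h5 : σ ^ 2 ≤ (7 * (hc / 3) / 4 + 2 * (d / 20)) ^ 2 := by
      rw [← sq_abs]; exact pow_le_pow_left₀ (abs_nonneg _) hσ 2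
    have h6 : 7 * (hc / 3) / 4 + 2 * (d / 20) ≤ 3 / 5 * hc := by linarith
    have h9 : (7 * (hc / 3) / 4 + 2 * (d / 20)) ^ 2 ≤ (3 / 5 * hc) ^ 2 :=
      pow_le_pow_left₀ (by positivity) h6 2
    have h10 : q ^ 2 = 1 - hc ^ 2 := by rw [hc2, hpq]; ring
    have hq1 : q ≤ 1 := by linarith
    nlinarith [sq_nonneg d, mul_nonneg hq0 hd0.le]

/-- geometric setting for the two sites of a cell -/
theorem cell_sites (θ0 p0 d y e : ℝ) (hd : 0 < d) (hd1 : d ≤ 1 / 24) (he : e = d / 20) (_hy0 : 0 < y)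
    (hy1 : y ≤ 1 / 3) (hx : |p0 - d| ≤ 1) :
    ∀ y', |y'| = y → ∀ l ∈ ({l | |l.1 - θ0| < 3 * e ∧ |l.2 - p0| < 3 * e} : Set (ℝ × ℝ)),
      l.2 - ((p0 - d) * cos (l.1 - θ0) + y' * sin (l.1 - θ0)) ∈ Ioo (d / 2) (2 * d) := by
  intro y' hy l hl
  obtain ⟨h1, h2⟩ := hl
  set α := l.1 - θ0 with hα
  set x := p0 - d with hxd
  have he0 : 0 < e := by rw [he]; positivity
  have hcos : 1 - cos α ≤ |α| := by
    have h1' := Real.one_sub_sq_div_two_le_cos (x := α)
    have h2' : |α| ≤ 1 := by linarith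
    have h3 : α ^ 2 ≤ |α| := by rw [← sq_abs]; nlinarith [abs_nonneg α]
    linarith [abs_nonneg α]
  have e1 : l.2 - (x * cos α + y' * sin α) - d = (l.2 - p0) + x * (1 - cos α) - y' * sin α := by
    rw [hxd]; ring
  have h3 : |l.2 - (x * cos α + y' * sin α) - d| < 9 * e := by
    rw [e1]
    have b1 : |x * (1 - cos α)| ≤ |α| := by
      rw [abs_mul, abs_of_nonneg (by linarith [cos_le_one α] : 0 ≤ 1 - cos α)]
      calc |x| * (1 - cos α) ≤ 1 * |α| :=
            mul_le_mul hx hcos (by linarith [cos_le_one α]) zero_le_one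
        _ = |α| := one_mul _
    have b2 : |y' * sin α| ≤ |α| := by
      rw [abs_mul, hy]
      calc y * |sin α| ≤ 1 * |α| :=
            mul_le_mul (by linarith) Real.abs_sin_le_abs (abs_nonneg _) zero_le_one
        _ = |α| := one_mul _
    calc |(l.2 - p0) + x * (1 - cos α) - y' * sin α| ≤ |l.2 - p0| + |x * (1 - cos α)| + |y' * sin α| :=
          (abs_sub _ _).trans (add_le_add (abs_add_le _ _) le_rfl)
      _ < 3 * e + 3 * e + 3 * e := by linarith
      _ = 9 * e := by ring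
  rw [abs_lt] at h3
  constructor <;> rw [he] at h3 <;> linarith [h3.1, h3.2]

theorem kill2_of_abstract (KA : KillAbstract2) : Kill2Stmt := by
  intro θ0 p0 hp
  obtain ⟨d, y, r, e, hd0, hy0, hr0, hr1, he0, he, hd1, hyc, hy1, hpe, hcA, hcB, hchord, hdisc⟩ :=
    cell_geometry p0 hp
  have hx : |p0 - d| ≤ 1 := by
    refine (abs_sub _ _).trans ?_
    rw [abs_of_pos hd0]
    have := hcA 0
    have h2 := abs_sub p0 d
    have h3 := norm_ctr_sq 0 (p0 - d) y
    have h4 : ‖ctr 0 (p0 - d) y‖ ≤ 1 - 4 * d := by linarith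
    have h5 : |p0 - d| ≤ ‖ctr 0 (p0 - d) y‖ := by
      apply abs_le_of_sq_le_sq _ (norm_nonneg _)
      rw [h3]; nlinarith [sq_nonneg y]
    have h6 : |p0| ≤ |p0 - d| + d := by
      have := abs_add_le (p0 - d) d
      rwa [sub_add_cancel, abs_of_pos hd0] at this
    linarith
  set cR := ctr θ0 (p0 - d) y with hcR
  set cL := ctr θ0 (p0 - d) (-y) with hcL
  set A : ℝ → ℝ := fun θ => (p0 - d) * cos (θ - θ0) + y * sin (θ - θ0) with hA
  set B : ℝ → ℝ := fun θ => (p0 - d) * cos (θ - θ0) + (-y) * sin (θ - θ0) with hB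
  have qdA : ∀ l : ℝ × ℝ, qd cR l = l.2 - A l.1 := fun l => by rw [qd, hcR, re_rot]
  have qdB : ∀ l : ℝ × ℝ, qd cL l = l.2 - B l.1 := fun l => by rw [qd, hcL, re_rot]
  set O : Set (ℝ × ℝ) := {l | |l.1 - θ0| < 3 * e ∧ |l.2 - p0| < 3 * e} with hO
  have hOo : IsOpen O := by
    have i1 : IsOpen {l : ℝ × ℝ | |l.1 - θ0| < 3 * e} := isOpen_lt (by fun_prop) continuous_const
    have i2 : IsOpen {l : ℝ × ℝ | |l.2 - p0| < 3 * e} := isOpen_lt (by fun_prop) continuous_const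
    exact i1.inter i2
  have hq := cell_sites θ0 p0 d y e hd0 hd1 he hy0 hy1 hx
  have hCO : Icc (θ0 - e - e) (θ0 + e + e) ×ˢ Icc (p0 - e - e) (p0 + e + e) ⊆ O := by
    intro l hl
    obtain ⟨⟨h1, h2⟩, h3, h4⟩ := hl
    constructor <;> rw [abs_lt] <;> constructor <;> linarith
  have hp0 := abs_le.mp (le_refl |p0|)
  refine ⟨e, he0, 3 * y / 8, by positivity, hchord, ?_⟩
  intro h hh hpos t ht ε hε
  simp only
  -- room
  set r2 := (1 + r) / 2 with hr2
  have hrr2 : r < r2 := by rw [hr2]; linarith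
  have hr21 : r2 < 1 := by rw [hr2]; linarith
  obtain ⟨χ, hχc, hχ0, hχ1, hχr, hχs⟩ := exists_room2 r r2 hr0 hrr2
  obtain ⟨m, hm0, hm⟩ := exists_lower h hh hpos r2 hr21
  set η := min (1 / 2) (min (ε / 8) (min (m / 2) (ε * m / 8))) with hη
  have hη0 : 0 < η := by rw [hη]; positivity
  have hη1 : η ≤ 1 / 2 := min_le_left _ _
  have hη2 : η ≤ ε / 8 := (min_le_right _ _).trans (min_le_left _ _)
  have hη3 : η ≤ m / 2 := (min_le_right _ _).trans ((min_le_right _ _).trans (min_le_left _ _))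
  have hη4 : η ≤ ε * m / 8 := (min_le_right _ _).trans ((min_le_right _ _).trans (min_le_right _ _))
  set h1 : ℂ → ℝ := fun z => (1 - η * χ z) * h z + η / 2 * χ z with hh1
  have h1c : ContDiff ℝ 1 h1 :=
    ((contDiff_const.sub (contDiff_const.mul hχc)).mul hh.c1).add (contDiff_const.mul hχc)
  have h1s : ∀ z, 1 ≤ ‖z‖ → h1 z = 0 := fun z hz => by
    simp [hh1, hh.supp z hz, hχs z (hr21.le.trans hz)]
  have h1d : ∀ z, |h1 z - h z| ≤ η / 2 := by
    intro z
    have e1 : h1 z - h z = η * χ z * (1 / 2 - h z) := by simp only [hh1]; ring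
    rw [e1, abs_mul, abs_mul, abs_of_pos hη0, abs_of_nonneg (hχ0 z)]
    have h2 := hh.nonneg z
    have h3 := hh.le_one z
    have h4 : |1 / 2 - h z| ≤ 1 / 2 := by rw [abs_le]; constructor <;> linarith
    calc η * χ z * |1 / 2 - h z| ≤ η * 1 * (1 / 2) := by
          gcongr
          exact hχ1 z
      _ = η / 2 := by ring
  set F := Rad h1 with hF
  have hFc : ContDiff ℝ 1 F := Rad_contDiff h1 h1c h1s
  -- the interval of levels
  set τ := min (t * (ε / 16)) (ε / 8) with hτ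
  have hτ0 : 0 < τ := by positivity
  have hτ1 : τ ≤ t * (ε / 16) := min_le_left _ _
  have hτ2 : τ ≤ ε / 8 := min_le_right _ _
  have hAc : ContDiff ℝ 2 A := by rw [hA]; fun_prop
  have hBc : ContDiff ℝ 2 B := by rw [hB]; fun_prop
  have hdA : ∀ θ, deriv A θ = - (p0 - d) * sin (θ - θ0) + y * cos (θ - θ0) :=
    fun θ => deriv_AB θ0 (p0 - d) y θ
  have hdB : ∀ θ, deriv B θ = - (p0 - d) * sin (θ - θ0) + (-y) * cos (θ - θ0) :=
    fun θ => deriv_AB θ0 (p0 - d) (-y) θ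
  have hcosl : ∀ θ ∈ Icc (θ0 - e - e) (θ0 + e + e), 3 / 4 ≤ cos (θ - θ0) ∧ |sin (θ - θ0)| ≤ 2 * e := by
    intro θ hθ
    have h2 : |θ - θ0| ≤ 2 * e := by rw [abs_le]; constructor <;> linarith [hθ.1, hθ.2]
    constructor
    · have h3 := Real.one_sub_sq_div_two_le_cos (x := θ - θ0)
      have h4 : (θ - θ0) ^ 2 ≤ (2 * e) ^ 2 := by
        rw [← sq_abs]; exact pow_le_pow_left₀ (abs_nonneg _) h2 2
      nlinarith
    · exact Real.abs_sin_le_abs.trans h2
  have hsub : ∀ y', |y'| = y → ∀ θ ∈ Icc (θ0 - e - e) (θ0 + e + e),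
      |- (p0 - d) * sin (θ - θ0) + y' * cos (θ - θ0)| ≤ y + 2 * e := by
    intro y' hy' θ hθ
    have h2 := (hcosl θ hθ).2
    have h3 := abs_cos_le_one (θ - θ0)
    calc |- (p0 - d) * sin (θ - θ0) + y' * cos (θ - θ0)|
        ≤ |- (p0 - d) * sin (θ - θ0)| + |y' * cos (θ - θ0)| := abs_add_le _ _
      _ = |p0 - d| * |sin (θ - θ0)| + y * |cos (θ - θ0)| := by rw [abs_mul, abs_mul, abs_neg, hy']
      _ ≤ 1 * (2 * e) + y * 1 := by gcongr
      _ = y + 2 * e := by ring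
  obtain ⟨φ, hφ, δ, hδ, Q, hQm, hserve, S, hSv, hstar⟩ := KA (θ0 - e) (θ0 + e) (p0 - e) (p0 + e) e
    (by linarith) (by linarith) he0 (by linarith) (by linarith) (by linarith) (by linarith)
    O hOo hCO A B hAc hBc (3 * y / 2) (by positivity)
    (by
      intro θ hθ
      rw [hdA, hdB]
      have := (hcosl θ hθ).1
      nlinarith)
    (by intro θ hθ; rw [hdA]; exact (hsub y (abs_of_pos hy0) θ hθ).trans (by linarith))
    (by intro θ hθ; rw [hdB]; exact (hsub (-y) (by rw [abs_neg, abs_of_pos hy0]) θ hθ).trans (by linarith))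
    (Pert r) (fun μ₁ μ₂ φ₁ φ₂ a b => Pert.add hr1.le a b) (fun μ hμ => Pert.zero hμ)
    (fun μ φ a => a.contDiff hr1.le) (fun μ φ a => a.abs_le hr1.le)
    (by
      intro K μ hμ
      obtain ⟨k0, hk0, hk⟩ := wave cR d r hd0 (hcA θ0) K μ hμ
      refine ⟨k0, hk0, fun k hkk => ?_⟩
      obtain ⟨φ, h2, h3⟩ := hk k hkk
      refine ⟨φ, h2, fun l hl => ?_⟩
      rw [h3 l (by rw [qdA]; exact hq y (abs_of_pos hy0) l hl), qdA])
    (by
      intro K μ hμ
      obtain ⟨k0, hk0, hk⟩ := wave cL d r hd0 (hcB θ0) K μ hμ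
      refine ⟨k0, hk0, fun k hkk => ?_⟩
      obtain ⟨φ, h2, h3⟩ := hk k hkk
      refine ⟨φ, h2, fun l hl => ?_⟩
      rw [h3 l (by rw [qdB]; exact hq (-y) (by rw [abs_neg, abs_of_pos hy0]) l hl), qdB])
    F hFc (min (ε / 2) (τ / 2)) (η / 2) (by positivity) (by positivity)
  -- the level
  obtain ⟨s, hs, hsS⟩ : ∃ s ∈ Ioo t (t + τ), s ∉ S := by
    by_contra hcon
    push Not at hcon
    have h2 : volume (Ioo t (t + τ)) ≤ volume S := measure_mono hcon
    rw [Real.volume_Ioo] at h2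
    have h3 := h2.trans hSv
    rw [ENNReal.ofReal_le_ofReal_iff (by positivity)] at h3
    have := min_le_right (ε / 2) (τ / 2)
    linarith
  have hs0 : 0 < s := ht.trans hs.1
  have hts : t / s ≤ 1 := by rw [div_le_one hs0]; exact hs.1.le
  have hts0 : 0 < t / s := by positivity
  have hts2 : 1 - t / s ≤ ε / 16 := by
    have h2 : s < t + t * (ε / 16) := by linarith [hs.2]
    rw [sub_le_iff_le_add, ← sub_le_iff_le_add']
    rw [le_div_iff₀ hs0]
    by_cases hε16 : ε / 16 ≤ 1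
    · have : (1 - ε / 16) * s ≤ (1 - ε / 16) * (t + t * (ε / 16)) := by
        apply mul_le_mul_of_nonneg_left h2.le; linarith
      nlinarith [mul_pos ht hε, mul_pos hε hε, mul_pos (mul_pos ht hε) hε]
    · nlinarith
  obtain ⟨f, hf1, hf2, hf3, hf4⟩ := hφ
  have hfs : ∀ z, 1 ≤ ‖z‖ → f z = 0 := fun z hz => hf3 z (hr1.le.trans hz)
  -- range of h1 + f
  have hrange : ∀ z, 0 ≤ h1 z + f z ∧ h1 z + f z ≤ 1 := by
    intro z
    have h2 := hh.nonneg z
    have h3 := hh.le_one z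
    by_cases hz : ‖z‖ ≤ r
    · have h4 := hf2 z
      rw [abs_le] at h4
      have h5 : h1 z = (1 - η) * h z + η / 2 := by simp [hh1, hχr z hz]
      constructor
      · rw [h5]; nlinarith [h4.1]
      · rw [h5]; nlinarith [h4.2]
    · have h4 := hf3 z (le_of_not_ge hz)
      rw [h4, add_zero]
      have h5 := hχ0 z
      have h6 := hχ1 z
      have h7 : 0 ≤ 1 - η * χ z := by nlinarith
      constructor
      · simp only [hh1]; nlinarith [mul_nonneg h7 h2, mul_nonneg hη0.le h5]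
      · simp only [hh1]; nlinarith [mul_nonneg h7 (sub_nonneg.mpr h3), mul_nonneg hη0.le h5]
  set h' : ℂ → ℝ := fun z => t / s * (h1 z + f z) with hh'
  have hh'N : Nice h' := by
    refine ⟨contDiff_const.mul (h1c.add hf1), fun z => mul_nonneg hts0.le (hrange z).1, fun z => ?_, fun z hz => ?_⟩
    · calc t / s * (h1 z + f z) ≤ 1 * 1 := mul_le_mul hts (hrange z).2 (hrange z).1 zero_le_one
        _ = 1 := one_mul 1
    · simp [hh', h1s z hz, hfs z hz]
  have hclose : ∀ z, |h' z - h z| ≤ ε := by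
    intro z
    have e1 : h' z - h z = -(1 - t / s) * (h1 z + f z) + f z + (h1 z - h z) := by simp only [hh']; ring
    have b1 : |-(1 - t / s) * (h1 z + f z)| ≤ ε / 16 := by
      rw [abs_mul, abs_neg, abs_of_nonneg (by linarith : 0 ≤ 1 - t / s), abs_of_nonneg (hrange z).1]
      calc (1 - t / s) * (h1 z + f z) ≤ ε / 16 * 1 := mul_le_mul hts2 (hrange z).2 (hrange z).1 (by positivity)
        _ = ε / 16 := mul_one _
    have b2 : |f z| ≤ ε / 16 := (hf2 z).trans (by linarith)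
    have b3 := h1d z
    rw [e1]
    calc |-(1 - t / s) * (h1 z + f z) + f z + (h1 z - h z)|
        ≤ |-(1 - t / s) * (h1 z + f z)| + |f z| + |h1 z - h z| :=
          (abs_add_le _ _).trans (add_le_add (abs_add_le _ _) le_rfl)
      _ ≤ ε := by linarith
  have hRad' : ∀ l, Rad h' l = t / s * (F l + φ l) := by
    intro l
    rw [hh', Rad_const_mul, Rad_add h1 f h1c.continuous hf1.continuous h1s hfs, hf4]
  have hRad0 : ∀ l, 0 ≤ Rad h l := fun l => integral_nonneg fun σ => hh.nonneg _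
  -- closeness of the transforms
  have hF1 : ∀ l, |F l - Rad h l| ≤ η := by
    intro l
    have := Rad_sub_abs_le h1 h h1c.continuous hh.c1.continuous h1s hh.supp (η / 2) h1d l
    linarith
  have hnorm : ∀ θ p σ : ℝ, |p| ≤ ‖pt θ p σ‖ := by
    intro θ p σ
    apply abs_le_of_sq_le_sq _ (norm_nonneg _)
    rw [norm_pt_sq]; nlinarith [sq_nonneg σ]
  have hF2 : ∀ l : ℝ × ℝ, r2 ≤ |l.2| → F l = Rad h l := by
    intro l hl
    rw [hF]; unfold Rad
    congr 1
    funext σ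
    have h2 : χ (pt l.1 l.2 σ) = 0 := hχs _ (hl.trans (hnorm _ _ _))
    simp [hh1, h2]
  have hφ2 : ∀ l : ℝ × ℝ, r2 ≤ |l.2| → φ l = 0 := by
    intro l hl
    rw [← hf4 l]; unfold Rad
    have : ∀ σ, f (pt l.1 l.2 σ) = 0 := fun σ => hf3 _ ((hrr2.le.trans hl).trans (hnorm _ _ _))
    simp [this]
  have hφ1 : ∀ l, |φ l| ≤ η := by
    intro l
    rw [← hf4 l]
    have := Rad_abs_le f hfs (η / 2) hf2 l
    linarith
  have hrel : ∀ l, |F l + φ l - Rad h l| ≤ min (ε / 4) 1 * Rad h l := by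
    intro l
    by_cases hl : |l.2| ≤ r2
    · have h2 : |F l + φ l - Rad h l| ≤ 2 * η := by
        have e1 : F l + φ l - Rad h l = (F l - Rad h l) + φ l := by ring
        rw [e1]
        refine (abs_add_le _ _).trans ?_
        linarith [hF1 l, hφ1 l]
      refine h2.trans ?_
      have h3 := hm l hl
      rcases min_cases (ε / 4) 1 with ⟨h4, _⟩ | ⟨h4, _⟩ <;> rw [h4] <;> nlinarith
    · have hl' := (not_le.mp hl).le
      rw [hF2 l hl', hφ2 l hl', add_zero, sub_self, abs_zero]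
      exact mul_nonneg (by positivity) (hRad0 l)
  set U : Set ℂ := {z | z ∈ Metric.ball (0 : ℂ) 1 ∧ (z, s) ∈ Q} with hU
  have hUm : MeasurableSet U :=
    measurableSet_ball.inter (hQm.preimage (by fun_prop : Measurable fun z : ℂ => (z, s)))
  refine ⟨h', hh'N, hclose, ?_, U, hUm, fun z hz => hz.1, δ * (t / s), by positivity, ?_, ?_⟩
  · intro l
    have h2 := hrel l
    have h3 := hRad0 l
    have h4 : Rad h' l - Rad h l = -(1 - t / s) * Rad h l + t / s * (F l + φ l - Rad h l) := by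
      rw [hRad']; ring
    rw [h4]
    calc |-(1 - t / s) * Rad h l + t / s * (F l + φ l - Rad h l)|
        ≤ |-(1 - t / s) * Rad h l| + |t / s * (F l + φ l - Rad h l)| := abs_add_le _ _
      _ = (1 - t / s) * Rad h l + t / s * |F l + φ l - Rad h l| := by
          rw [abs_mul, abs_mul, abs_neg, abs_of_nonneg (by linarith : 0 ≤ 1 - t / s), abs_of_pos hts0,
            abs_of_nonneg h3]
      _ ≤ ε / 16 * Rad h l + 1 * (ε / 4 * Rad h l) := by
          have h5 : |F l + φ l - Rad h l| ≤ ε / 4 * Rad h l :=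
            h2.trans (mul_le_mul_of_nonneg_right (min_le_left _ _) h3)
          gcongr
      _ ≤ ε * Rad h l := by nlinarith
  · intro θ p hθ hp' hlev
    have hθ' := abs_le.mp hθ
    have hp'' := abs_le.mp hp'
    have hmem : (θ, p) ∈ Icc (θ0 - e) (θ0 + e) ×ˢ Icc (p0 - e) (p0 + e) :=
      ⟨⟨by linarith [hθ'.1], by linarith [hθ'.2]⟩, by linarith [hp''.1], by linarith [hp''.2]⟩
    have h2 : |F (θ, p) + φ (θ, p) - s| ≤ δ := by
      rw [hRad'] at hlev
      have e2 : t / s * (F (θ, p) + φ (θ, p)) - t = t / s * (F (θ, p) + φ (θ, p) - s) := by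
        field_simp
      rw [e2, abs_mul, abs_of_pos hts0, mul_comm] at hlev
      exact le_of_mul_le_mul_right hlev hts0
    have h3 := hserve (θ, p) hmem s h2
    rw [show 3 * y / 2 / 4 = 3 * y / 8 by ring] at h3
    refine h3.trans (measure_mono ?_)
    rintro σ ⟨hσ, hQσ⟩
    refine ⟨?_, hQσ⟩
    have hθ2 : θ ∈ Icc (θ0 - e - e) (θ0 + e + e) := ⟨by linarith [hθ'.1], by linarith [hθ'.2]⟩
    have hB' := abs_le.mp (hsub (-y) (by rw [abs_neg, abs_of_pos hy0]) θ hθ2)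
    have hA' := abs_le.mp (hsub y (abs_of_pos hy0) θ hθ2)
    simp only at hσ
    rw [hdA, hdB] at hσ
    have hσa : |σ| ≤ 7 * y / 4 + 2 * e := by
      rw [abs_le]; constructor <;> linarith [hσ.1, hσ.2, hA'.2, hB'.1]
    have h4 := hdisc p σ hp' hσa
    rw [mem_ball_zero_iff]
    have h5 := norm_pt_sq θ p σ
    nlinarith [norm_nonneg (pt θ p σ)]
  · intro l hl
    obtain ⟨l', h1', h2'⟩ := exists_same (θ0 - e - 5 / 3) (θ0 + e + 5 / 3)
      (by have := Real.pi_lt_d2; linarith) l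
    rw [← h1'.2.2 U]
    rw [← h1'.2.1 h] at hl
    have h3 : min (ε / 2) (τ / 2) ≤ |F l' - s| := by
      refine (min_le_left _ _).trans ?_
      have h4 := hF1 l'
      have h5 : |s - t| ≤ ε / 8 := by
        rw [abs_of_pos (by linarith [hs.1])]; linarith [hs.2]
      have h6 : |Rad h l' - t| ≤ |Rad h l' - F l'| + |F l' - s| + |s - t| := by
        have e1 : Rad h l' - t = (Rad h l' - F l') + (F l' - s) + (s - t) := by ring
        rw [e1]
        exact (abs_add_le _ _).trans (add_le_add (abs_add_le _ _) le_rfl)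
      rw [abs_sub_comm (Rad h l') (F l')] at h6
      linarith
    have h4 := hstar s hsS l' h2' h3
    refine (measure_mono ?_).trans (h4.trans (ENNReal.ofReal_le_ofReal ?_))
    · rintro σ ⟨hσ1, hσ2⟩
      refine ⟨?_, hσ2⟩
      rw [mem_ball_zero_iff] at hσ1
      by_contra hcon
      exact absurd (one_le_norm_pt l'.1 l'.2 σ (not_le.mp hcon).le) (not_le.mpr hσ1)
    · refine (min_le_left _ _).trans (by linarith)

end Croft
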