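import Pool.Agent.Helper952.Croft.RadBasic

open MeasureTheory Real Set Filter Topology

namespace Croft

/-- statement of (KA) -/
def KillAbstract : Prop :=
  ∀ (a1 a2 b1 b2 : ℝ), a1 ≤ a2 → b1 ≤ b2 → ∀ (O : Set (ℝ × ℝ)), IsOpen O →
    Icc a1 a2 ×ˢ Icc b1 b2 ⊆ O → ∀ (A B : ℝ → ℝ), ContDiff ℝ 2 A → ContDiff ℝ 2 B →
    ∀ (X : ℝ), 0 < X →
    (∀ l ∈ Icc a1 a2 ×ˢ Icc b1 b2, X ≤ deriv A l.1 - deriv B l.1) →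
    (∀ l ∈ Icc a1 a2 ×ˢ Icc b1 b2, |deriv A l.1| ≤ 1/2) →
    (∀ l ∈ Icc a1 a2 ×ˢ Icc b1 b2, |deriv B l.1| ≤ 1/2) →
    ∀ (P : ℝ → (ℝ × ℝ → ℝ) → Prop),
    (∀ μ₁ μ₂ φ₁ φ₂, P μ₁ φ₁ → P μ₂ φ₂ → P (μ₁ + μ₂) (fun l => φ₁ l + φ₂ l)) →
    (∀ μ, 0 ≤ μ → P μ (fun _ => 0)) →
    (∀ μ φ, P μ φ → ContDiff ℝ 1 φ) → (∀ μ φ, P μ φ → ∀ l, |φ l| ≤ 2 * μ) →
    (∀ K μ, 0 < μ → ∃ k0 > 0, ∀ k ≥ k0, ∃ φ, P μ φ ∧ ∀ l ∈ O,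
       φ l = K / (2 * π * k) * sin (2 * π * k * (l.2 - A l.1))) →
    (∀ K μ, 0 < μ → ∃ k0 > 0, ∀ k ≥ k0, ∃ φ, P μ φ ∧ ∀ l ∈ O,
       φ l = K / (2 * π * k) * sin (2 * π * k * (l.2 - B l.1))) →
    ∀ (F : ℝ × ℝ → ℝ), ContDiff ℝ 1 F → ∀ (ε μ : ℝ), 0 < ε → 0 < μ →
    ∃ φ, P μ φ ∧ ∃ δ > 0, ∃ Q : Set (ℂ × ℝ), MeasurableSet Q ∧ volume Q ≤ ENNReal.ofReal ε ∧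
      Serve (fun l => F l + φ l) (Icc a1 a2 ×ˢ Icc b1 b2) (X / 4) δ Q

end Croft
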