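import Mathlib

/-! Parametric integrals of `C^1` functions are `C^1`. -/

open MeasureTheory Real Set Filter Topology

namespace Croft

theorem contDiff_param {E : Type*} [NormedAddCommGroup E] [NormedSpace ℝ E] [ProperSpace E]
    (k : E × ℝ → ℝ) (hk : ContDiff ℝ 1 k) (a b : ℝ) :
    ContDiff ℝ 1 (fun x => ∫ s in a..b, k (x, s)) := by
  have hkd : Differentiable ℝ k := hk.differentiable (by norm_num)
  have hkc : Continuous (fderiv ℝ k) := hk.continuous_fderiv (by norm_num)
  let k' : E → ℝ → (E →L[ℝ] ℝ) := fun x s => (fderiv ℝ k (x, s)).comp (ContinuousLinearMap.inl ℝ E ℝ)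
  have hk'c : Continuous (Function.uncurry k') := by
    have : Continuous fun q : E × ℝ => fderiv ℝ k (q.1, q.2) := hkc.comp (by fun_prop)
    exact (this.clm_comp continuous_const)
  have hd : ∀ x s, HasFDerivAt (fun y => k (y, s)) (k' x s) x := by
    intro x s
    have h1 : HasFDerivAt k (fderiv ℝ k (x, s)) (x, s) := (hkd _).hasFDerivAt
    have h2 : HasFDerivAt (fun y : E => (y, s)) (ContinuousLinearMap.inl ℝ E ℝ) x :=
      hasFDerivAt_prodMk_left x s
    exact h1.comp x h2
  have key : ∀ x₀, HasFDerivAt (fun x => ∫ s in a..b, k (x, s)) (∫ s in a..b, k' x₀ s) x₀ := by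
    intro x₀
    obtain ⟨M, hM⟩ := ((isCompact_closedBall x₀ 1).prod (isCompact_uIcc (a := a) (b := b))).exists_bound_of_continuousOn
      hk'c.continuousOn
    refine intervalIntegral.hasFDerivAt_integral_of_dominated_of_fderiv_le (s := Metric.closedBall x₀ 1)
      (bound := fun _ => M) (F' := k') (Metric.closedBall_mem_nhds x₀ one_pos) ?_ ?_ ?_ ?_ ?_ ?_
    · refine Filter.Eventually.of_forall fun x => ?_
      have : Continuous fun s => k (x, s) := hk.continuous.comp (by fun_prop)
      exact this.aestronglyMeasurable
    · have : Continuous fun s => k (x₀, s) := hk.continuous.comp (by fun_prop)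
      exact this.intervalIntegrable _ _
    · have : Continuous fun s => k' x₀ s := hk'c.comp (by fun_prop : Continuous fun s : ℝ => (x₀, s))
      exact this.aestronglyMeasurable
    · refine Filter.Eventually.of_forall fun s hs x hx => ?_
      exact hM (x, s) ⟨hx, uIoc_subset_uIcc hs⟩
    · exact intervalIntegrable_const
    · exact Filter.Eventually.of_forall fun s _ x _ => hd x s
  rw [contDiff_one_iff_fderiv]
  refine ⟨fun x => (key x).differentiableAt, ?_⟩
  have : fderiv ℝ (fun x => ∫ s in a..b, k (x, s)) = fun x => ∫ s in a..b, k' x s := by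
    funext x; exact (key x).fderiv
  rw [this]
  exact intervalIntegral.continuous_parametric_intervalIntegral_of_continuous' hk'c a b

end Croft
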