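import Pool.Agent.Helper952.Croft.Defs
import Pool.Agent.Helper952.Croft.Param

/-! Radial functions with an exactly prescribed Radon transform. -/

open MeasureTheory Real Set Filter Topology

namespace Croft

/-- signed distance of `c` to the line -/
noncomputable def qd (c : ℂ) (l : ℝ × ℝ) : ℝ := l.2 - (Complex.exp (-(l.1 * Complex.I)) * c).re

/-- parameter of the foot of `c` -/
noncomputable def foot (c : ℂ) (θ : ℝ) : ℝ := (Complex.exp (-(θ * Complex.I)) * c).im

theorem norm_pt_sub_sq (c : ℂ) (θ p σ : ℝ) :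
    ‖pt θ p σ - c‖ ^ 2 = (qd c (θ, p)) ^ 2 + (σ - foot c θ) ^ 2 := by
  have h1 : pt θ p σ - c = Complex.exp (θ * Complex.I) *
      (((p : ℂ) + σ * Complex.I) - Complex.exp (-(θ * Complex.I)) * c) := by
    have : Complex.exp (θ * Complex.I) * Complex.exp (-(θ * Complex.I)) = 1 := by
      rw [← Complex.exp_add]; simp
    rw [pt, mul_sub, ← mul_assoc, this, one_mul]
  rw [h1, norm_mul, Complex.norm_exp_ofReal_mul_I, one_mul, ← Complex.normSq_eq_norm_sq,
    Complex.normSq_apply]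
  simp only [qd, foot, Complex.sub_re, Complex.sub_im, Complex.add_re, Complex.add_im,
    Complex.ofReal_re, Complex.ofReal_im, Complex.mul_re, Complex.mul_im, Complex.I_re, Complex.I_im]
  ring

theorem norm_pt_sq (θ p σ : ℝ) : ‖pt θ p σ‖ ^ 2 = p ^ 2 + σ ^ 2 := by
  have := norm_pt_sub_sq 0 θ p σ
  simpa [qd, foot] using this

/-- radial function with prescribed Radon transform -/
noncomputable def radial (g : ℝ → ℝ) (ρ : ℝ) (c : ℂ) (z : ℂ) : ℝ :=
  -(1 / π) * ∫ s in (-ρ)..ρ, deriv g (‖z - c‖ ^ 2 + s ^ 2)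

theorem radial_contDiff (g : ℝ → ℝ) (hg : ContDiff ℝ 2 g) (ρ : ℝ) (c : ℂ) :
    ContDiff ℝ 1 (radial g ρ c) := by
  have hg' : ContDiff ℝ 1 (deriv g) := by
    have : ContDiff ℝ (1 + 1) g := by simpa [one_add_one_eq_two] using hg
    exact (contDiff_succ_iff_deriv.mp this).2.2
  have hk : ContDiff ℝ 1 (fun q : ℂ × ℝ => deriv g (‖q.1 - c‖ ^ 2 + q.2 ^ 2)) := by
    refine hg'.comp ?_
    have h1 : ContDiff ℝ 1 (fun q : ℂ × ℝ => ‖q.1 - c‖ ^ 2) :=
      (contDiff_norm_sq ℝ).comp (contDiff_fst.sub contDiff_const)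
    exact h1.add (contDiff_snd.pow 2)
  exact contDiff_const.mul (contDiff_param _ hk (-ρ) ρ)

theorem deriv_eq_zero_of_ge {g : ℝ → ℝ} {ρ₁ : ℝ} (h0 : ∀ x, ρ₁ ≤ x → g x = 0) {x : ℝ} (hx : ρ₁ < x) :
    deriv g x = 0 := by
  have : g =ᶠ[𝓝 x] fun _ => 0 := by
    filter_upwards [Ioi_mem_nhds hx] with y hy using h0 y (le_of_lt hy)
  rw [this.deriv_eq]; simp

theorem radial_support (g : ℝ → ℝ) (ρ ρ₁ : ℝ) (hρ : ρ₁ < ρ ^ 2) (hρ0 : 0 ≤ ρ)
    (h0 : ∀ x, ρ₁ ≤ x → g x = 0) (c z : ℂ) (hz : ρ ≤ ‖z - c‖) : radial g ρ c z = 0 := by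
  have : ∀ s : ℝ, deriv g (‖z - c‖ ^ 2 + s ^ 2) = 0 := by
    intro s
    apply deriv_eq_zero_of_ge h0
    have : ρ ^ 2 ≤ ‖z - c‖ ^ 2 := by gcongr
    nlinarith [sq_nonneg s]
  simp [radial, this]

theorem radial_eq_integral (g : ℝ → ℝ) (ρ ρ₁ : ℝ) (hρ : ρ₁ < ρ ^ 2) (hρ0 : 0 < ρ)
    (h0 : ∀ x, ρ₁ ≤ x → g x = 0) (c z : ℂ) :
    radial g ρ c z = -(1 / π) * ∫ s, deriv g (‖z - c‖ ^ 2 + s ^ 2) := by
  rw [radial, intervalIntegral.integral_of_le (by linarith)]
  congr 1
  apply setIntegral_eq_integral_of_forall_compl_eq_zero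
  intro s hs
  apply deriv_eq_zero_of_ge h0
  have : ρ ^ 2 ≤ s ^ 2 := by
    simp only [mem_Ioc, not_and_or, not_lt, not_le] at hs
    rcases hs with hs | hs <;> nlinarith
  nlinarith [sq_nonneg ‖z - c‖]

theorem integral_plane (g : ℝ → ℝ) (hg : ContDiff ℝ 2 g) (ρ₁ : ℝ)
    (h0 : ∀ x, ρ₁ ≤ x → g x = 0) (q : ℝ) :
    ∫ σ : ℝ, ∫ s : ℝ, deriv g (q ^ 2 + σ ^ 2 + s ^ 2) = - π * g (q ^ 2) := by
  have hg1 : Continuous (deriv g) := hg.continuous_deriv (by norm_num)
  -- as an integral over the plane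
  have hcs : HasCompactSupport (fun z : ℂ => deriv g (q ^ 2 + ‖z‖ ^ 2)) := by
    refine HasCompactSupport.of_support_subset_isCompact (isCompact_closedBall (0:ℂ) (Real.sqrt (|ρ₁| + 1))) ?_
    intro z hz
    by_contra hzz
    apply hz
    simp only [Metric.mem_closedBall, dist_zero_right, not_le] at hzz
    apply deriv_eq_zero_of_ge h0
    have h1 : |ρ₁| + 1 < ‖z‖ ^ 2 := by
      have := Real.lt_sq_of_sqrt_lt hzz
      exact this
    nlinarith [sq_nonneg q, le_abs_self ρ₁]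
  have hcont : Continuous (fun z : ℂ => deriv g (q ^ 2 + ‖z‖ ^ 2)) := by fun_prop
  have hint : Integrable (fun z : ℂ => deriv g (q ^ 2 + ‖z‖ ^ 2)) := hcont.integrable_of_hasCompactSupport hcs
  have e1 : ∫ z : ℂ, deriv g (q ^ 2 + ‖z‖ ^ 2) = ∫ σ : ℝ, ∫ s : ℝ, deriv g (q ^ 2 + σ ^ 2 + s ^ 2) := by
    have hmp := Complex.volume_preserving_equiv_real_prod.symm
    rw [← hmp.integral_comp Complex.measurableEquivRealProd.symm.measurableEmbedding]
    have hint2 : Integrable (fun x : ℝ × ℝ => deriv g (q ^ 2 + ‖Complex.measurableEquivRealProd.symm x‖ ^ 2))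
        (volume.prod volume) := by
      have := (hmp.integrable_comp_emb Complex.measurableEquivRealProd.symm.measurableEmbedding).mpr hint
      exact this
    rw [Measure.volume_eq_prod, integral_prod _ hint2]
    congr 1; ext σ; congr 1; ext s
    congr 1
    have : ‖Complex.measurableEquivRealProd.symm (σ, s)‖ ^ 2 = σ ^ 2 + s ^ 2 := by
      rw [← Complex.normSq_eq_norm_sq, Complex.normSq_apply]
      simp [Complex.measurableEquivRealProd_symm_apply]; ring
    rw [this]; ring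
  rw [← e1]
  have e2 := MeasureTheory.integral_fun_norm_addHaar (μ := (volume : Measure ℂ))
    (fun r : ℝ => deriv g (q ^ 2 + r ^ 2))
  rw [e2]
  have e3 : ∫ y in Ioi (0:ℝ), y ^ (Module.finrank ℝ ℂ - 1) • deriv g (q ^ 2 + y ^ 2) = - (g (q ^ 2)) / 2 := by
    have hder : ∀ y ∈ Ici (0:ℝ), HasDerivAt (fun y => g (q ^ 2 + y ^ 2) / 2)
        (y ^ (Module.finrank ℝ ℂ - 1) • deriv g (q ^ 2 + y ^ 2)) y := by
      intro y _
      have h1 : HasDerivAt g (deriv g (q ^ 2 + y ^ 2)) (q ^ 2 + y ^ 2) :=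
        (hg.differentiable (by norm_num) _).hasDerivAt
      have h2 : HasDerivAt (fun y : ℝ => q ^ 2 + y ^ 2) (2 * y) y := by
        have := (hasDerivAt_pow 2 y).const_add (q ^ 2)
        simpa using this
      have h3 := (h1.comp y h2).div_const 2
      refine h3.congr_deriv ?_
      rw [Complex.finrank_real_complex]
      simp only [Nat.add_one_sub_one, pow_one, smul_eq_mul]
      ring
    have htend : Tendsto (fun y => g (q ^ 2 + y ^ 2) / 2) atTop (𝓝 0) := by
      apply tendsto_const_nhds.congr'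
      filter_upwards [eventually_ge_atTop (|ρ₁| + 1)] with y hy
      rw [h0]; · simp
      have : ρ₁ ≤ |ρ₁| := le_abs_self _
      nlinarith [sq_nonneg q, abs_nonneg ρ₁]
    have hcs2 : HasCompactSupport (fun y : ℝ => y ^ (Module.finrank ℝ ℂ - 1) • deriv g (q ^ 2 + y ^ 2)) := by
      refine HasCompactSupport.of_support_subset_isCompact (isCompact_closedBall (0:ℝ) (|ρ₁| + 1)) ?_
      intro y hy
      by_contra hyy
      apply hy
      simp only [Metric.mem_closedBall, dist_zero_right, not_le, Real.norm_eq_abs] at hyy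
      have : deriv g (q ^ 2 + y ^ 2) = 0 := by
        apply deriv_eq_zero_of_ge h0
        have h1 : (|ρ₁| + 1) ^ 2 < y ^ 2 := by
          rw [← sq_abs y]; gcongr
        nlinarith [sq_nonneg q, le_abs_self ρ₁, abs_nonneg ρ₁]
      simp [this]
    have hc2 : Continuous (fun y : ℝ => y ^ (Module.finrank ℝ ℂ - 1) • deriv g (q ^ 2 + y ^ 2)) := by fun_prop
    have := integral_Ioi_of_hasDerivAt_of_tendsto' hder
      (hc2.integrable_of_hasCompactSupport hcs2).integrableOn htend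
    rw [this]; simp; ring
  rw [e3]
  have hvol : (volume : Measure ℂ).real (Metric.ball 0 1) = π := by
    rw [Measure.real, Complex.volume_ball]; simp
  rw [hvol, Complex.finrank_real_complex]
  simp; ring

theorem Rad_radial (g : ℝ → ℝ) (hg : ContDiff ℝ 2 g) (ρ ρ₁ : ℝ) (hρ : ρ₁ < ρ ^ 2) (hρ0 : 0 < ρ)
    (h0 : ∀ x, ρ₁ ≤ x → g x = 0) (c : ℂ) (l : ℝ × ℝ) :
    Rad (radial g ρ c) l = g ((qd c l) ^ 2) := by
  have e1 : ∀ σ, radial g ρ c (pt l.1 l.2 σ) =
      -(1 / π) * ∫ s, deriv g ((qd c l) ^ 2 + (σ - foot c l.1) ^ 2 + s ^ 2) := by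
    intro σ
    rw [radial_eq_integral g ρ ρ₁ hρ hρ0 h0, norm_pt_sub_sq]
  rw [Rad]
  simp_rw [e1]
  rw [integral_const_mul]
  have e2 := integral_sub_right_eq_self (fun σ : ℝ => ∫ s, deriv g ((qd c l) ^ 2 + σ ^ 2 + s ^ 2)) (foot c l.1)
    (μ := volume)
  rw [e2, integral_plane g hg ρ₁ h0]
  have := Real.pi_ne_zero
  field_simp

theorem radial_bound (g : ℝ → ℝ) (hg : ContDiff ℝ 2 g) (ρ ρ₁ : ℝ) (hρ : ρ₁ < ρ ^ 2) (hρ0 : 0 < ρ)
    (h0 : ∀ x, ρ₁ ≤ x → g x = 0) (c z : ℂ) (G0 G1 a : ℝ) (ha : 0 < a) (haρ : a ≤ ρ)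
    (hG0 : ∀ x, |g x| ≤ G0) (hG1 : ∀ x, |deriv g x| ≤ G1) :
    |radial g ρ c z| ≤ 2 * a * G1 + 2 * G0 / a := by
  have hg1 : Continuous (deriv g) := hg.continuous_deriv (by norm_num)
  set x := ‖z - c‖ ^ 2 with hx
  have hx0 : 0 ≤ x := by positivity
  have hG00 : 0 ≤ G0 := (abs_nonneg _).trans (hG0 0)
  have hG10 : 0 ≤ G1 := (abs_nonneg _).trans (hG1 0)
  have hc : Continuous (fun s : ℝ => deriv g (x + s ^ 2)) := by fun_prop
  have hsym : ∫ s in (-ρ)..ρ, deriv g (x + s ^ 2) = 2 * ∫ s in (0:ℝ)..ρ, deriv g (x + s ^ 2) := by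
    rw [← intervalIntegral.integral_add_adjacent_intervals (hc.intervalIntegrable (-ρ) 0) (hc.intervalIntegrable 0 ρ)]
    have : ∫ s in (-ρ)..0, deriv g (x + s ^ 2) = ∫ s in (0:ℝ)..ρ, deriv g (x + s ^ 2) := by
      have h := intervalIntegral.integral_comp_neg (a := 0) (b := ρ) (fun s : ℝ => deriv g (x + s ^ 2))
      simp only [neg_sq, neg_zero] at h
      rw [← h]
    rw [this]; ring
  have hA : |∫ s in (0:ℝ)..a, deriv g (x + s ^ 2)| ≤ a * G1 := by
    have := intervalIntegral.norm_integral_le_of_norm_le_const (a := 0) (b := a)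
      (f := fun s : ℝ => deriv g (x + s ^ 2)) (C := G1) (fun s _ => hG1 _)
    simpa [abs_of_pos ha, mul_comm] using this
  have hB : |∫ s in a..ρ, deriv g (x + s ^ 2)| ≤ G0 / a := by
    have hgd : ∀ y, HasDerivAt g (deriv g y) y := fun y => (hg.differentiable (by norm_num) _).hasDerivAt
    have hne : ∀ s ∈ uIcc a ρ, s ≠ 0 := by
      intro s hs
      rw [uIcc_of_le haρ] at hs
      exact (lt_of_lt_of_le ha hs.1).ne'
    have hder : ∀ s ∈ uIcc a ρ, HasDerivAt (fun s => g (x + s ^ 2) / (2 * s))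
        (deriv g (x + s ^ 2) - g (x + s ^ 2) / (2 * s ^ 2)) s := by
      intro s hs
      have hs0 := hne s hs
      have h2 : HasDerivAt (fun y : ℝ => x + y ^ 2) (2 * s) s := by
        have := (hasDerivAt_pow 2 s).const_add x
        simpa using this
      have h3 := ((hgd (x + s ^ 2)).comp s h2).div ((hasDerivAt_id' s).const_mul 2) (by simpa using hs0)
      refine h3.congr_deriv ?_
      simp only [Function.comp]
      field_simp
    have hcont2 : ContinuousOn (fun s => g (x + s ^ 2) / (2 * s ^ 2)) (uIcc a ρ) := by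
      apply ContinuousOn.div
      · exact (hg.continuous.comp (by fun_prop : Continuous fun s : ℝ => x + s ^ 2)).continuousOn
      · fun_prop
      · intro s hs; have := hne s hs; positivity
    have hFTC := intervalIntegral.integral_eq_sub_of_hasDerivAt hder
      ((hc.continuousOn.sub hcont2).intervalIntegrable)
    rw [intervalIntegral.integral_sub (hc.intervalIntegrable _ _) hcont2.intervalIntegrable] at hFTC
    have hρz : g (x + ρ ^ 2) = 0 := h0 _ (by linarith)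
    rw [hρz] at hFTC
    have hint : |∫ s in a..ρ, g (x + s ^ 2) / (2 * s ^ 2)| ≤ G0 / 2 * (1 / a - 1 / ρ) := by
      have hb : ∀ s ∈ Ioc a ρ, ‖g (x + s ^ 2) / (2 * s ^ 2)‖ ≤ G0 / 2 * (s ^ 2)⁻¹ := by
        intro s hs
        have hs0 : 0 < s := ha.trans hs.1
        rw [Real.norm_eq_abs, abs_div, abs_of_pos (by positivity : 0 < 2 * s ^ 2)]
        rw [div_le_iff₀ (by positivity)]
        have := hG0 (x + s ^ 2)
        calc |g (x + s ^ 2)| ≤ G0 := this
          _ = G0 / 2 * (s ^ 2)⁻¹ * (2 * s ^ 2) := by field_simp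
      have hd2 : ∀ s ∈ uIcc a ρ, HasDerivAt (fun s : ℝ => -(G0 / 2) * s⁻¹) (G0 / 2 * (s ^ 2)⁻¹) s := by
        intro s hs
        have := (hasDerivAt_inv (hne s hs)).const_mul (-(G0 / 2))
        refine this.congr_deriv ?_
        ring
      have hc3 : ContinuousOn (fun s : ℝ => G0 / 2 * (s ^ 2)⁻¹) (uIcc a ρ) := by
        apply ContinuousOn.mul continuousOn_const
        apply ContinuousOn.inv₀ (by fun_prop)
        intro s hs; have := hne s hs; positivity
      have h4 := intervalIntegral.integral_eq_sub_of_hasDerivAt hd2 hc3.intervalIntegrable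
      have h5 := intervalIntegral.norm_integral_le_of_norm_le (μ := volume) haρ (Filter.Eventually.of_forall hb) hc3.intervalIntegrable
      rw [Real.norm_eq_abs] at h5
      refine h5.trans (le_of_eq ?_)
      rw [h4]; ring
    have h6 : ∫ s in a..ρ, deriv g (x + s ^ 2) = (∫ s in a..ρ, g (x + s ^ 2) / (2 * s ^ 2)) - g (x + a ^ 2) / (2 * a) := by
      have : (0:ℝ) / (2 * ρ) = 0 := by simp
      rw [this] at hFTC
      linarith
    rw [h6]
    have h7 : |g (x + a ^ 2) / (2 * a)| ≤ G0 / (2 * a) := by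
      rw [abs_div, abs_of_pos (by positivity : 0 < 2 * a)]
      gcongr
      exact hG0 _
    have h8 : (0:ℝ) ≤ 1 / ρ := by positivity
    calc |(∫ s in a..ρ, g (x + s ^ 2) / (2 * s ^ 2)) - g (x + a ^ 2) / (2 * a)|
        ≤ |∫ s in a..ρ, g (x + s ^ 2) / (2 * s ^ 2)| + |g (x + a ^ 2) / (2 * a)| := abs_sub _ _
      _ ≤ G0 / 2 * (1 / a - 1 / ρ) + G0 / (2 * a) := add_le_add hint h7
      _ ≤ G0 / 2 * (1 / a) + G0 / (2 * a) := by gcongr; linarith
      _ = G0 / a := by field_simp; ring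
  have hC : |∫ s in (0:ℝ)..ρ, deriv g (x + s ^ 2)| ≤ a * G1 + G0 / a := by
    rw [← intervalIntegral.integral_add_adjacent_intervals (hc.intervalIntegrable 0 a) (hc.intervalIntegrable a ρ)]
    exact (abs_add_le _ _).trans (add_le_add hA hB)
  rw [radial, abs_mul, hsym, abs_mul]
  have hpi : |-(1 / π)| ≤ 1 := by
    rw [abs_neg, abs_of_pos (by positivity)]
    rw [div_le_one (by positivity)]
    linarith [Real.pi_gt_three]
  have : |(2:ℝ)| = 2 := by norm_num
  rw [this]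
  calc |-(1 / π)| * (2 * |∫ s in (0:ℝ)..ρ, deriv g (x + s ^ 2)|)
      ≤ 1 * (2 * (a * G1 + G0 / a)) := by gcongr
    _ = 2 * a * G1 + 2 * G0 / a := by ring

end Croft
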