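import Pool.Agent.Helper952.Croft.Radial

/-! The wave lemma: high frequency waves of arbitrary slope are Radon transforms of small functions. -/

open MeasureTheory Real Set Filter Topology

namespace Croft

/-- the profile in the variable `x = q²` -/
noncomputable def prof (χ : ℝ → ℝ) (K k : ℝ) (x : ℝ) : ℝ :=
  χ x * (K / (2 * π * k) * sin (2 * π * k * Real.sqrt x))

theorem prof_contDiff (χ : ℝ → ℝ) (hχ : ContDiff ℝ 2 χ) (x1 : ℝ) (hx1 : 0 < x1)
    (h0 : ∀ x ≤ x1, χ x = 0) (K k : ℝ) : ContDiff ℝ 2 (prof χ K k) := by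
  rw [contDiff_iff_contDiffAt]
  intro x
  by_cases hx : x < x1
  · have : prof χ K k =ᶠ[𝓝 x] fun _ => 0 := by
      filter_upwards [Iio_mem_nhds hx] with y hy
      simp [prof, h0 y (le_of_lt hy)]
    exact contDiffAt_const.congr_of_eventuallyEq this
  · have hx' : 0 < x := by linarith
    have h1 : ContDiffAt ℝ 2 Real.sqrt x := Real.contDiffAt_sqrt hx'.ne'
    exact hχ.contDiffAt.mul (contDiffAt_const.mul
      ((Real.contDiff_sin.contDiffAt).comp x (contDiffAt_const.mul h1)))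

theorem prof_abs_le (χ : ℝ → ℝ) (hχ1 : ∀ x, |χ x| ≤ 1) (K k : ℝ) (hk : 0 < k) (x : ℝ) :
    |prof χ K k x| ≤ |K| / (2 * π * k) := by
  rw [prof, abs_mul, abs_mul, abs_div, abs_of_pos (by positivity : 0 < 2 * π * k)]
  have h1 := abs_sin_le_one (2 * π * k * Real.sqrt x)
  have h2 := hχ1 x
  calc |χ x| * (|K| / (2 * π * k) * |sin (2 * π * k * √x)|)
      ≤ 1 * (|K| / (2 * π * k) * 1) := by gcongr
    _ = _ := by ring

theorem prof_deriv_abs_le (χ : ℝ → ℝ) (hχ : ContDiff ℝ 2 χ) (x1 : ℝ) (hx1 : 0 < x1)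
    (h0 : ∀ x ≤ x1, χ x = 0) (hχ1 : ∀ x, |χ x| ≤ 1) (X : ℝ) (hX : ∀ x, |deriv χ x| ≤ X)
    (K k : ℝ) (hk : 1 ≤ k) (x : ℝ) :
    |deriv (prof χ K k) x| ≤ |K| * (X + 1 / (2 * Real.sqrt x1)) := by
  have hX0 : 0 ≤ X := (abs_nonneg _).trans (hX 0)
  by_cases hx : x < x1
  · have : prof χ K k =ᶠ[𝓝 x] fun _ => 0 := by
      filter_upwards [Iio_mem_nhds hx] with y hy
      simp [prof, h0 y (le_of_lt hy)]
    rw [this.deriv_eq]
    simp; positivity
  · have hx' : 0 < x := by linarith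
    have hk0 : 0 < k := by linarith
    have h1 := Real.hasDerivAt_sqrt hx'.ne'
    have h2 : HasDerivAt (fun x => sin (2 * π * k * Real.sqrt x))
        (cos (2 * π * k * Real.sqrt x) * (2 * π * k * (1 / (2 * Real.sqrt x)))) x :=
      (h1.const_mul (2 * π * k)).sin
    have h3 : HasDerivAt χ (deriv χ x) x := (hχ.differentiable (by norm_num) x).hasDerivAt
    have h4 := h3.mul (h2.const_mul (K / (2 * π * k)))
    have h5 : HasDerivAt (prof χ K k) (deriv χ x * (K / (2 * π * k) * sin (2 * π * k * √x)) +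
        χ x * (K / (2 * π * k) * (cos (2 * π * k * √x) * (2 * π * k * (1 / (2 * √x)))))) x := h4
    rw [h5.deriv]
    have e1 : K / (2 * π * k) * (cos (2 * π * k * √x) * (2 * π * k * (1 / (2 * √x)))) =
        K * (cos (2 * π * k * √x) * (1 / (2 * √x))) := by
      have := Real.pi_pos.ne'
      field_simp
    rw [e1]
    have b1 : |K / (2 * π * k) * sin (2 * π * k * √x)| ≤ |K| := by
      rw [abs_mul, abs_div, abs_of_pos (by positivity : 0 < 2 * π * k)]
      have h6 := abs_sin_le_one (2 * π * k * Real.sqrt x)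
      have h7 : 1 ≤ 2 * π * k := by nlinarith [Real.pi_gt_three]
      calc |K| / (2 * π * k) * |sin (2 * π * k * √x)| ≤ |K| / 1 * 1 := by gcongr
        _ = |K| := by ring
    have b2 : |K * (cos (2 * π * k * √x) * (1 / (2 * √x)))| ≤ |K| * (1 / (2 * √x1)) := by
      rw [abs_mul, abs_mul, abs_of_pos (by positivity : 0 < 1 / (2 * √x))]
      have h6 := abs_cos_le_one (2 * π * k * Real.sqrt x)
      have h7 : √x1 ≤ √x := Real.sqrt_le_sqrt (not_lt.mp hx)
      have h8 : 0 < √x1 := Real.sqrt_pos.mpr hx1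
      calc |K| * (|cos (2 * π * k * √x)| * (1 / (2 * √x))) ≤ |K| * (1 * (1 / (2 * √x1))) := by gcongr
        _ = _ := by ring
    calc |deriv χ x * (K / (2 * π * k) * sin (2 * π * k * √x)) + χ x * (K * (cos (2 * π * k * √x) * (1 / (2 * √x))))|
        ≤ |deriv χ x| * |K / (2 * π * k) * sin (2 * π * k * √x)| +
          |χ x| * |K * (cos (2 * π * k * √x) * (1 / (2 * √x)))| := by
            refine (abs_add_le _ _).trans (le_of_eq ?_)
            rw [abs_mul (deriv χ x), abs_mul (χ x)]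
      _ ≤ X * |K| + 1 * (|K| * (1 / (2 * √x1))) := by
            have := hX x; have := hχ1 x
            gcongr
      _ = _ := by ring

theorem exists_cutoff (d : ℝ) (hd : 0 < d) : ∃ χ : ℝ → ℝ, ContDiff ℝ 2 χ ∧ (∀ x, |χ x| ≤ 1) ∧
    (∀ x ≤ d ^ 2 / 16, χ x = 0) ∧ (∀ x, 5 * d ^ 2 ≤ x → χ x = 0) ∧
    (∀ x ∈ Icc (d ^ 2 / 4) (4 * d ^ 2), χ x = 1) ∧ ∃ X, ∀ x, |deriv χ x| ≤ X := by
  have hd2 : 0 < d ^ 2 := by positivity
  let f : ContDiffBump (17 / 8 * d ^ 2 : ℝ) := ⟨30 / 16 * d ^ 2, 33 / 16 * d ^ 2, by positivity, by linarith⟩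
  have hf : ContDiff ℝ 2 f := f.contDiff
  refine ⟨f, hf, ?_, ?_, ?_, ?_, ?_⟩
  · intro x
    rw [abs_of_nonneg f.nonneg]
    exact f.le_one
  · intro x hx
    apply f.zero_of_le_dist
    rw [Real.dist_eq, abs_of_nonpos (by linarith)]
    show 33 / 16 * d ^ 2 ≤ _
    linarith
  · intro x hx
    apply f.zero_of_le_dist
    rw [Real.dist_eq, abs_of_nonneg (by linarith)]
    show 33 / 16 * d ^ 2 ≤ _
    linarith
  · intro x hx
    apply f.one_of_mem_closedBall
    rw [Metric.mem_closedBall, Real.dist_eq]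
    show _ ≤ 30 / 16 * d ^ 2
    rw [abs_le]
    constructor <;> linarith [hx.1, hx.2]
  · have hcs : HasCompactSupport (deriv f) := f.hasCompactSupport.deriv
    have hc : Continuous (deriv f) := hf.continuous_deriv (by norm_num)
    obtain ⟨X, hX⟩ := hcs.exists_bound_of_continuous hc
    exact ⟨X, fun x => hX x⟩

theorem wave (c : ℂ) (d r : ℝ) (hd : 0 < d) (hc : ‖c‖ + 4 * d ≤ r) (K μ : ℝ)
    (hμ : 0 < μ) :
    ∃ k0 > 0, ∀ k ≥ k0, ∃ φ, Pert r μ φ ∧ ∀ l : ℝ × ℝ, qd c l ∈ Ioo (d / 2) (2 * d) →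
      φ l = K / (2 * π * k) * sin (2 * π * k * qd c l) := by
  obtain ⟨χ, hχ, hχ1, h0, h5, h1, X, hX⟩ := exists_cutoff d hd
  have hX0 : 0 ≤ X := (abs_nonneg _).trans (hX 0)
  have hd2 : 0 < d ^ 2 / 16 := by positivity
  set G1 := |K| * (X + 1 / (2 * Real.sqrt (d ^ 2 / 16))) with hG1
  have hG10 : 0 ≤ G1 := by positivity
  -- choose k0
  set T := 2 * G1 + |K| + 1 with hT
  have hT0 : 0 < T := by positivity
  refine ⟨max (max 1 (1 / (16 * d ^ 2))) ((T / μ) ^ 2), by positivity, ?_⟩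
  intro k hk
  have hk1 : 1 ≤ k := ((le_max_left _ _).trans (le_max_left _ _)).trans hk
  have hk2 : 1 / (16 * d ^ 2) ≤ k := ((le_max_right _ _).trans (le_max_left _ _)).trans hk
  have hk3 : (T / μ) ^ 2 ≤ k := (le_max_right _ _).trans hk
  have hk0 : 0 < k := by linarith
  set g := prof χ K k with hg
  have hgC : ContDiff ℝ 2 g := prof_contDiff χ hχ _ hd2 h0 K k
  have hg5 : ∀ x, 5 * d ^ 2 ≤ x → g x = 0 := by
    intro x hx; simp [hg, prof, h5 x hx]
  have hρ : 5 * d ^ 2 < (4 * d) ^ 2 := by nlinarith [sq_nonneg d, hd2]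
  have hρ0 : 0 < 4 * d := by positivity
  refine ⟨fun l => g ((qd c l) ^ 2), ⟨radial g (4 * d) c, radial_contDiff g hgC _ c, ?_, ?_, ?_⟩, ?_⟩
  · intro z
    set a := 1 / Real.sqrt k with ha
    have hsk : 0 < Real.sqrt k := Real.sqrt_pos.mpr hk0
    have ha0 : 0 < a := by positivity
    have haρ : a ≤ 4 * d := by
      rw [ha, div_le_iff₀ hsk]
      have : 1 / (4 * d) ≤ Real.sqrt k := by
        apply Real.le_sqrt_of_sq_le
        calc (1 / (4 * d)) ^ 2 = 1 / (16 * d ^ 2) := by ring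
          _ ≤ k := hk2
      calc (1:ℝ) = 4 * d * (1 / (4 * d)) := by field_simp
        _ ≤ 4 * d * Real.sqrt k := by gcongr
    have hb := radial_bound g hgC (4 * d) (5 * d ^ 2) hρ hρ0 hg5 c z (|K| / (2 * π * k)) G1 a ha0 haρ
      (fun x => prof_abs_le χ hχ1 K k hk0 x)
      (fun x => prof_deriv_abs_le χ hχ _ hd2 h0 hχ1 X hX K k hk1 x)
    refine hb.trans ?_
    have h6 : 2 * (|K| / (2 * π * k)) / a ≤ |K| / Real.sqrt k := by
      rw [ha]
      have hkk : k = Real.sqrt k * Real.sqrt k := (Real.mul_self_sqrt hk0.le).symm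
      have : 2 * (|K| / (2 * π * k)) / (1 / Real.sqrt k) = (|K| / Real.sqrt k) / π := by
        nth_rewrite 1 [hkk]
        field_simp
      rw [this]
      apply div_le_self (by positivity)
      linarith [Real.pi_gt_three]
    calc 2 * a * G1 + 2 * (|K| / (2 * π * k)) / a ≤ 2 * a * G1 + |K| / Real.sqrt k := by gcongr
      _ = (2 * G1 + |K|) / Real.sqrt k := by rw [ha]; ring
      _ ≤ T / Real.sqrt k := by gcongr; linarith
      _ ≤ μ := by
        rw [div_le_iff₀ hsk]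
        have : T / μ ≤ Real.sqrt k := Real.le_sqrt_of_sq_le hk3
        rw [div_le_iff₀ hμ] at this
        linarith
  · intro z hz
    apply radial_support g (4 * d) (5 * d ^ 2) hρ hρ0.le hg5
    have := norm_sub_norm_le z c
    linarith
  · intro l
    exact Rad_radial g hgC (4 * d) (5 * d ^ 2) hρ hρ0 hg5 c l
  · intro l hl
    have hq0 : 0 < qd c l := by have := hl.1; linarith
    have hmem : (qd c l) ^ 2 ∈ Icc (d ^ 2 / 4) (4 * d ^ 2) := by
      constructor
      · have := hl.1; nlinarith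
      · have := hl.2; nlinarith
    show prof χ K k ((qd c l) ^ 2) = _
    rw [prof, h1 _ hmem, Real.sqrt_sq hq0.le, one_mul]

end Croft
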